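import Mathlib
import Pool.Agent.Helper61.FR.Defs

/-!
# FR-P10: small technical facts

* `norm_e`, `e_add`, `e_int`: `e` is a unimodular character, trivial on integers.
* `avg_close`: with `D = 3 ^ (2 ^ n) * 2 ^ n` and `x' = ⌊D x⌋₊ / D` one has `|x - x'| ≤ 1 / D`, and
  `‖e a - e b‖ ≤ 2 π |a - b|`; each term of the average moves by at most
  `2 π m 2 ^ i 3 ^ k / D ≤ 2 π m 2 ^ M / 2 ^ n`.
* `avg_fract`: periodicity.
* `measurable_avg`, `measurableSet_dev`.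
-/

set_option autoImplicit false

open MeasureTheory Finset

namespace Pool.Agent.Helper61.FR

theorem norm_e (y : ℝ) : ‖e y‖ = 1 := by
  have h : (2 * Real.pi * y * Complex.I : ℂ) = ((2 * Real.pi * y : ℝ) : ℂ) * Complex.I := by
    push_cast; ring
  rw [e, h, Complex.norm_exp_ofReal_mul_I]

theorem e_add (x y : ℝ) : e (x + y) = e x * e y := by
  rw [e, e, e, ← Complex.exp_add]
  congr 1
  push_cast
  ring

theorem e_int (z : ℤ) : e z = 1 := by
  rw [e, ← Complex.exp_int_mul_two_pi_mul_I z]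
  congr 1
  push_cast
  ring

theorem norm_e_sub_le (x y : ℝ) : ‖e x - e y‖ ≤ 2 * Real.pi * |x - y| := by
  have h1 : e x = e (x - y) * e y := by
    rw [← e_add]
    congr 1
    ring
  have h2 : e x - e y = (e (x - y) - 1) * e y := by
    rw [h1]; ring
  have h3 : e (x - y) = Complex.exp (Complex.I * ((2 * Real.pi * (x - y) : ℝ) : ℂ)) := by
    rw [e]
    congr 1
    push_cast
    ring
  rw [h2, norm_mul, norm_e, mul_one, h3]
  refine le_trans (Real.norm_exp_I_mul_ofReal_sub_one_le) (le_of_eq ?_)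
  rw [Real.norm_eq_abs, abs_mul, abs_of_pos (by positivity : (0 : ℝ) < 2 * Real.pi)]

theorem continuous_e : Continuous e := by
  unfold e
  fun_prop

theorem avg_close (m n M : ℕ) (hM : 1 ≤ M) (x : ℝ) (hx : 0 ≤ x) :
    ‖avg M (2 ^ n) (fun y => e (m * y)) x -
      avg M (2 ^ n) (fun y => e (m * y))
        ((⌊((3 ^ (2 ^ n) * 2 ^ n : ℕ) : ℝ) * x⌋₊ : ℝ) / (3 ^ (2 ^ n) * 2 ^ n : ℕ))‖ ≤
      2 * Real.pi * m * 2 ^ M / 2 ^ n := by
  set D : ℝ := ((3 ^ (2 ^ n) * 2 ^ n : ℕ) : ℝ) with hD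
  have hD' : D = 3 ^ (2 ^ n) * 2 ^ n := by rw [hD]; push_cast; ring
  have hD0 : 0 < D := by rw [hD']; positivity
  set x' : ℝ := (⌊D * x⌋₊ : ℝ) / D with hx'
  have hxx : |x - x'| ≤ 1 / D := by
    have h1 : (⌊D * x⌋₊ : ℝ) ≤ D * x := Nat.floor_le (by positivity)
    have h2 : D * x < (⌊D * x⌋₊ : ℝ) + 1 := Nat.lt_floor_add_one _
    have h3 : x - x' = (D * x - (⌊D * x⌋₊ : ℝ)) / D := by
      rw [hx']; field_simp
    rw [h3, abs_of_nonneg (div_nonneg (by linarith) hD0.le)]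
    exact div_le_div_of_nonneg_right (by linarith) hD0.le
  have hN : (0 : ℝ) < (M : ℝ) * ((2 ^ n : ℕ) : ℝ) := by
    have : (0 : ℝ) < M := by exact_mod_cast hM
    push_cast
    positivity
  have hN1 : (1 : ℝ) ≤ (M : ℝ) * ((2 ^ n : ℕ) : ℝ) := by
    have : 1 ≤ M * 2 ^ n := Nat.one_le_iff_ne_zero.2 (by positivity)
    exact_mod_cast this
  have hdiff : avg M (2 ^ n) (fun y => e (m * y)) x - avg M (2 ^ n) (fun y => e (m * y)) x' =
      (∑ i ∈ range M, ∑ k ∈ range (2 ^ n),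
        (e (m * (2 ^ i * 3 ^ k * x)) - e (m * (2 ^ i * 3 ^ k * x')))) /
        (M * ((2 ^ n : ℕ) : ℂ)) := by
    unfold avg
    rw [← sub_div]
    congr 1
    simp only [← Finset.sum_sub_distrib]
  rw [hdiff, norm_div]
  have hnorm : ‖((M : ℂ) * ((2 ^ n : ℕ) : ℂ))‖ = (M : ℝ) * ((2 ^ n : ℕ) : ℝ) := by
    rw [norm_mul, Complex.norm_natCast, Complex.norm_natCast]
  rw [hnorm]
  have hterm : ∀ i ∈ range M, ∀ k ∈ range (2 ^ n),
      ‖e (m * (2 ^ i * 3 ^ k * x)) - e (m * (2 ^ i * 3 ^ k * x'))‖ ≤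
        2 * Real.pi * m / D * (2 ^ i * 3 ^ k) := by
    intro i _ k _
    refine le_trans (norm_e_sub_le _ _) ?_
    have h1 : (m : ℝ) * (2 ^ i * 3 ^ k * x) - m * (2 ^ i * 3 ^ k * x') =
        (m * (2 ^ i * 3 ^ k)) * (x - x') := by ring
    rw [h1, abs_mul, abs_of_nonneg (by positivity : (0 : ℝ) ≤ m * (2 ^ i * 3 ^ k))]
    calc 2 * Real.pi * ((m : ℝ) * (2 ^ i * 3 ^ k) * |x - x'|)
        ≤ 2 * Real.pi * ((m : ℝ) * (2 ^ i * 3 ^ k) * (1 / D)) := by gcongr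
      _ = 2 * Real.pi * m / D * (2 ^ i * 3 ^ k) := by ring
  have hsum : ‖∑ i ∈ range M, ∑ k ∈ range (2 ^ n),
      (e (m * (2 ^ i * 3 ^ k * x)) - e (m * (2 ^ i * 3 ^ k * x')))‖ ≤
      2 * Real.pi * m / D * ((∑ i ∈ range M, (2 : ℝ) ^ i) * ∑ k ∈ range (2 ^ n), (3 : ℝ) ^ k) := by
    rw [Finset.sum_mul_sum, Finset.mul_sum]
    refine le_trans (norm_sum_le _ _) (Finset.sum_le_sum fun i hi => ?_)
    rw [Finset.mul_sum]
    refine le_trans (norm_sum_le _ _) (Finset.sum_le_sum fun k hk => ?_)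
    exact hterm i hi k hk
  have hg2 : ∑ i ∈ range M, (2 : ℝ) ^ i ≤ 2 ^ M := by
    have := geom_sum_eq (by norm_num : (2 : ℝ) ≠ 1) M
    rw [this]
    have : (0 : ℝ) < 2 ^ M := by positivity
    linarith [show ((2 : ℝ) ^ M - 1) / (2 - 1) = 2 ^ M - 1 by norm_num]
  have hg3 : ∑ k ∈ range (2 ^ n), (3 : ℝ) ^ k ≤ 3 ^ (2 ^ n) := by
    have := geom_sum_eq (by norm_num : (3 : ℝ) ≠ 1) (2 ^ n)
    rw [this]
    have : (0 : ℝ) < 3 ^ (2 ^ n) := by positivity
    have h2 : ((3 : ℝ) ^ (2 ^ n) - 1) / (3 - 1) = (3 ^ (2 ^ n) - 1) / 2 := by norm_num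
    rw [h2]
    linarith
  have hg2' : (0 : ℝ) ≤ ∑ i ∈ range M, (2 : ℝ) ^ i := by positivity
  have hg3' : (0 : ℝ) ≤ ∑ k ∈ range (2 ^ n), (3 : ℝ) ^ k := by positivity
  have hfin : ‖∑ i ∈ range M, ∑ k ∈ range (2 ^ n),
      (e (m * (2 ^ i * 3 ^ k * x)) - e (m * (2 ^ i * 3 ^ k * x')))‖ ≤
      2 * Real.pi * m * 2 ^ M / 2 ^ n := by
    refine le_trans hsum ?_
    calc 2 * Real.pi * m / D * ((∑ i ∈ range M, (2 : ℝ) ^ i) * ∑ k ∈ range (2 ^ n), (3 : ℝ) ^ k)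
        ≤ 2 * Real.pi * m / D * (2 ^ M * 3 ^ (2 ^ n)) := by gcongr
      _ = 2 * Real.pi * m * 2 ^ M / 2 ^ n := by
          rw [hD']
          field_simp
  refine le_trans (div_le_self (norm_nonneg _) hN1) hfin

theorem avg_fract (M N m : ℕ) (x : ℝ) :
    avg M N (fun y => e (m * y)) (Int.fract x) = avg M N (fun y => e (m * y)) x := by
  unfold avg
  congr 1
  refine Finset.sum_congr rfl fun i _ => Finset.sum_congr rfl fun k _ => ?_
  have h1 : (m : ℝ) * (2 ^ i * 3 ^ k * x) = m * (2 ^ i * 3 ^ k * Int.fract x) +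
      ((m * (2 ^ i * 3 ^ k * ⌊x⌋) : ℤ) : ℝ) := by
    have h2 : x = Int.fract x + (⌊x⌋ : ℝ) := (Int.fract_add_floor x).symm
    push_cast
    conv_lhs => rw [h2]
    ring
  show e ((m : ℝ) * (2 ^ i * 3 ^ k * Int.fract x)) = e ((m : ℝ) * (2 ^ i * 3 ^ k * x))
  rw [h1, e_add, e_int, mul_one]

theorem measurable_avg (M N m : ℕ) : Measurable (avg M N (fun y => e (m * y))) := by
  have : Continuous (avg M N (fun y => e (m * y))) := by
    unfold avg
    refine Continuous.div_const ?_ _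
    refine continuous_finsetSum _ fun i _ => continuous_finsetSum _ fun k _ => ?_
    exact continuous_e.comp (by fun_prop)
  exact this.measurable

theorem measurableSet_dev (μ : Measure ℝ) (M N m : ℕ) (η : ℝ) :
    MeasurableSet (dev μ M N m η) := by
  unfold dev
  exact measurableSet_lt measurable_const ((measurable_avg M N m).sub_const _).norm

theorem fract_mem_dev (μ : Measure ℝ) (M N m : ℕ) (η x : ℝ) :
    Int.fract x ∈ dev μ M N m η ↔ x ∈ dev μ M N m η := by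
  unfold dev
  rw [Set.mem_ofPred_eq, Set.mem_ofPred_eq, avg_fract]

end Pool.Agent.Helper61.FR
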