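import Mathlib
import Pool.Agent.Helper61.FR.Defs

/-!
# FR-P3: the finite form of Rudolph's theorem (entropy bound for one step)

Proof.  For `a = c + D j` (`c < D`, `j < 2 ^ n`) put `w a = p (D 2 ^ n) a / p D c` (and `0` if
`p D c = 0`).  By `inv_eq` the sum over `j` of `w` is `1`, and
`ent p (D 2 ^ n) - ent p D = ∑ p a * (- log (w a))`.  Let `L = {a | w a ≤ δ}`.  Then
`∑_{a ∈ L} p a ‖S a‖ ^ 2 ≤ ∑_c p D c * δ * R = δ R`, and `‖S a‖ ≥ κ` off `B`, so
`∑_{a ∈ L} p a ≤ b + δ R / κ ^ 2`.  For `a ∉ L`, `- log (w a) ≤ log (1 / δ)`.  For `a ∈ L` use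
`w log (1 / w) ≤ w n log 2 + 2 ^ (-n)` (as `u log (1 / u) ≤ 1` for `u = 2 ^ n w ≥ 0`) and sum
over the `2 ^ n` values of `j`.
-/

set_option autoImplicit false

open MeasureTheory Finset

namespace Pool.Agent.Helper61.FR

private theorem sum_range_mul_aux (D M : ℕ) (hD : 1 ≤ D) (f : ℕ → ℝ) :
    ∑ a ∈ range (D * M), f a = ∑ c ∈ range D, ∑ j ∈ range M, f (c + D * j) := by
  rw [← Finset.sum_product']
  refine Finset.sum_nbij' (fun a => (a % D, a / D)) (fun t => t.1 + D * t.2) ?_ ?_ ?_ ?_ ?_
  · intro a ha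
    simp only [mem_range] at ha
    simp only [mem_product, mem_range]
    exact ⟨Nat.mod_lt _ (by omega), (Nat.div_lt_iff_lt_mul (by omega)).2 (by rwa [mul_comm] at ha)⟩
  · rintro ⟨c, j⟩ ht
    simp only [mem_product, mem_range] at ht ⊢
    calc c + D * j < D + D * j := by omega
      _ = D * (j + 1) := by ring
      _ ≤ D * M := Nat.mul_le_mul_left _ (by omega)
  · intro a _
    exact Nat.mod_add_div a D
  · rintro ⟨c, j⟩ ht
    simp only [mem_product, mem_range] at ht
    have h1 : (c + D * j) % D = c := by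
      rw [Nat.add_mul_mod_self_left, Nat.mod_eq_of_lt ht.1]
    have h2 : (c + D * j) / D = j := by
      rw [Nat.add_mul_div_left _ _ (by omega), Nat.div_eq_of_lt ht.1, zero_add]
    simp [h1, h2]
  · intro a _
    simp only
    rw [Nat.mod_add_div]

private theorem negMulLog_le_one {u : ℝ} (hu : 0 ≤ u) : Real.negMulLog u ≤ 1 := by
  rcases hu.eq_or_lt with rfl | hu
  · simp
  · have h := Real.one_sub_inv_le_log_of_pos hu
    have : u * (1 - u⁻¹) ≤ u * Real.log u := mul_le_mul_of_nonneg_left h hu.le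
    have h2 : u * (1 - u⁻¹) = u - 1 := by field_simp
    simp only [Real.negMulLog]
    linarith

private theorem step_aux {x q δ : ℝ} (n : ℕ) (hx : 0 ≤ x) (hq : 0 < q) (hδ : 0 < δ)
    (hδ1 : δ ≤ 1) :
    Real.negMulLog x - (x / q) * Real.negMulLog q ≤
      x * Real.log (1 / δ) + (if x ≤ δ * q then x else 0) * (n * Real.log 2) + q / 2 ^ n := by
  set w := x / q with hw
  have hw0 : 0 ≤ w := by positivity
  have hxw : x = w * q := by rw [hw]; field_simp
  have h1 : Real.negMulLog x - w * Real.negMulLog q = q * Real.negMulLog w := by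
    rw [hxw, Real.negMulLog_mul]; ring
  rw [h1]
  have hlogδ : 0 ≤ Real.log (1 / δ) := Real.log_nonneg (by rw [le_div_iff₀ hδ]; linarith)
  have h2n : (0 : ℝ) < 2 ^ n := by positivity
  have hlog2 : 0 ≤ Real.log 2 := Real.log_nonneg (by norm_num)
  split_ifs with h
  · have hu := negMulLog_le_one (u := 2 ^ n * w) (by positivity)
    rw [Real.negMulLog_mul] at hu
    have h3 : Real.negMulLog ((2 : ℝ) ^ n) = - (2 ^ n * (n * Real.log 2)) := by
      simp only [Real.negMulLog, Real.log_pow]; ring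
    rw [h3] at hu
    have h4 : Real.negMulLog w ≤ w * (n * Real.log 2) + 1 / 2 ^ n := by
      have : (2 : ℝ) ^ n * Real.negMulLog w ≤ 2 ^ n * (w * (n * Real.log 2) + 1 / 2 ^ n) := by
        rw [mul_add, mul_one_div_cancel h2n.ne']
        linarith
      exact le_of_mul_le_mul_left this h2n
    have h5 : q * Real.negMulLog w ≤ q * (w * (n * Real.log 2) + 1 / 2 ^ n) :=
      mul_le_mul_of_nonneg_left h4 hq.le
    have h6 : q * (w * (n * Real.log 2) + 1 / 2 ^ n) = x * (n * Real.log 2) + q / 2 ^ n := by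
      rw [hxw]; ring
    have h7 : 0 ≤ x * Real.log (1 / δ) := by positivity
    linarith
  · push Not at h
    have hwδ : δ ≤ w := by rw [hw, le_div_iff₀ hq]; exact h.le
    have h4 : Real.negMulLog w ≤ w * Real.log (1 / δ) := by
      have hl : Real.log δ ≤ Real.log w := Real.log_le_log hδ hwδ
      rw [one_div, Real.log_inv]
      simp only [Real.negMulLog]
      nlinarith
    have h5 : q * Real.negMulLog w ≤ q * (w * Real.log (1 / δ)) :=
      mul_le_mul_of_nonneg_left h4 hq.le
    have h6 : q * (w * Real.log (1 / δ)) = x * Real.log (1 / δ) := by rw [hxw]; ring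
    have h7 : 0 ≤ q / 2 ^ n := by positivity
    linarith

theorem stage1 {p : ℕ → ℕ → ℝ} (hp : Profile p) (D n : ℕ) (hD : 1 ≤ D) (S : ℕ → ℂ)
    (B : Finset ℕ) (R κ b δ : ℝ) (hR : 0 ≤ R) (hκ : 0 < κ) (hδ : 0 < δ) (hδ1 : δ ≤ 1)
    (hS : ∀ c < D, ∑ j ∈ range (2 ^ n), ‖S (c + D * j)‖ ^ 2 ≤ R)
    (hB : ∑ a ∈ B, p (D * 2 ^ n) a ≤ b)
    (hSB : ∀ a < D * 2 ^ n, a ∉ B → κ ≤ ‖S a‖) :
    ent p (D * 2 ^ n) ≤
      ent p D + Real.log (1 / δ) + (b + δ * R / κ ^ 2) * (n * Real.log 2) + 1 := by
  classical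
  have h2n : (0 : ℝ) < 2 ^ n := by positivity
  have hlog2 : 0 ≤ Real.log 2 := Real.log_nonneg (by norm_num)
  have hlogδ : 0 ≤ Real.log (1 / δ) := Real.log_nonneg (by rw [le_div_iff₀ hδ]; linarith)
  set N := D * 2 ^ n with hN
  -- the pointwise estimate on a fibre
  have hfib : ∀ c ∈ range D, ∑ j ∈ range (2 ^ n), Real.negMulLog (p N (c + D * j)) ≤
      Real.negMulLog (p D c) + ∑ j ∈ range (2 ^ n), (p N (c + D * j) * Real.log (1 / δ) +
        (if p N (c + D * j) ≤ δ * p D c then p N (c + D * j) else 0) * (n * Real.log 2) +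
        p D c / 2 ^ n) := by
    intro c hc
    have hc' := mem_range.1 hc
    have hinv := hp.inv_eq D n c hD hc'
    rcases (hp.nonneg D c).eq_or_lt with h0 | hq
    · have hz : ∀ j ∈ range (2 ^ n), p N (c + D * j) = 0 := by
        rw [← h0] at hinv
        exact (Finset.sum_eq_zero_iff_of_nonneg (fun j _ => hp.nonneg _ _)).1 hinv.symm
      rw [← h0]
      have e1 : ∑ j ∈ range (2 ^ n), Real.negMulLog (p N (c + D * j)) = 0 :=
        Finset.sum_eq_zero fun j hj => by rw [hz j hj]; simp
      have e2 : ∑ j ∈ range (2 ^ n), (p N (c + D * j) * Real.log (1 / δ) +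
        (if p N (c + D * j) ≤ δ * 0 then p N (c + D * j) else 0) * (n * Real.log 2) +
        0 / 2 ^ n) = 0 :=
        Finset.sum_eq_zero fun j hj => by rw [hz j hj]; simp
      rw [e1, e2]; simp
    · have hsum : ∑ j ∈ range (2 ^ n), (p N (c + D * j) / p D c) * Real.negMulLog (p D c) =
          Real.negMulLog (p D c) := by
        rw [← Finset.sum_mul, ← Finset.sum_div, ← hinv, div_self hq.ne', one_mul]
      have := Finset.sum_le_sum fun j (_ : j ∈ range (2 ^ n)) =>
        step_aux (x := p N (c + D * j)) (q := p D c) n (hp.nonneg _ _) hq hδ hδ1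
      rw [Finset.sum_sub_distrib, hsum] at this
      linarith
  -- the mass of the small points
  have hL : ∑ c ∈ range D, ∑ j ∈ range (2 ^ n),
      (if p N (c + D * j) ≤ δ * p D c then p N (c + D * j) else 0) ≤ b + δ * R / κ ^ 2 := by
    have hpt : ∀ c ∈ range D, ∀ j ∈ range (2 ^ n),
        (if p N (c + D * j) ≤ δ * p D c then p N (c + D * j) else 0) ≤
        (if c + D * j ∈ B then p N (c + D * j) else 0) +
          δ * p D c / κ ^ 2 * ‖S (c + D * j)‖ ^ 2 := by
      intro c hc j hj
      have hq := hp.nonneg D c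
      have hx := hp.nonneg N (c + D * j)
      have hnn : 0 ≤ δ * p D c / κ ^ 2 * ‖S (c + D * j)‖ ^ 2 := by positivity
      split_ifs with h1 h2 h2
      · linarith
      · have hlt : c + D * j < N := by
          have hc' := mem_range.1 hc
          have hj' := mem_range.1 hj
          calc c + D * j < D + D * j := by omega
            _ = D * (j + 1) := by ring
            _ ≤ D * 2 ^ n := Nat.mul_le_mul_left _ (by omega)
        have hk := hSB _ hlt h2
        have hk2 : κ ^ 2 ≤ ‖S (c + D * j)‖ ^ 2 := by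
          apply pow_le_pow_left₀ hκ.le hk
        have : δ * p D c ≤ δ * p D c / κ ^ 2 * ‖S (c + D * j)‖ ^ 2 := by
          calc δ * p D c = δ * p D c / κ ^ 2 * κ ^ 2 := by field_simp
            _ ≤ _ := mul_le_mul_of_nonneg_left hk2 (by positivity)
        linarith
      · linarith
      · linarith
    calc _ ≤ ∑ c ∈ range D, ∑ j ∈ range (2 ^ n),
          ((if c + D * j ∈ B then p N (c + D * j) else 0) +
          δ * p D c / κ ^ 2 * ‖S (c + D * j)‖ ^ 2) :=
        Finset.sum_le_sum fun c hc => Finset.sum_le_sum fun j hj => hpt c hc j hj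
      _ = (∑ c ∈ range D, ∑ j ∈ range (2 ^ n),
            (if c + D * j ∈ B then p N (c + D * j) else 0)) +
          ∑ c ∈ range D, ∑ j ∈ range (2 ^ n), δ * p D c / κ ^ 2 * ‖S (c + D * j)‖ ^ 2 := by
        simp only [Finset.sum_add_distrib]
      _ ≤ b + δ * R / κ ^ 2 := by
        refine add_le_add ?_ ?_
        · rw [← sum_range_mul_aux D (2 ^ n) hD (fun a => if a ∈ B then p N a else 0)]
          rw [← Finset.sum_filter]
          refine le_trans (Finset.sum_le_sum_of_subset_of_nonneg ?_ ?_) hB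
          · intro a ha
            exact (Finset.mem_filter.1 ha).2
          · intro a _ _
            exact hp.nonneg _ _
        · calc _ ≤ ∑ c ∈ range D, δ * p D c / κ ^ 2 * R := by
                refine Finset.sum_le_sum fun c hc => ?_
                rw [← Finset.mul_sum]
                have hq := hp.nonneg D c
                exact mul_le_mul_of_nonneg_left (hS c (mem_range.1 hc)) (by positivity)
            _ = (∑ c ∈ range D, p D c) * (δ * R / κ ^ 2) := by
                rw [Finset.sum_mul]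
                exact Finset.sum_congr rfl fun c _ => by ring
            _ = δ * R / κ ^ 2 := by rw [hp.sum_eq_one D hD, one_mul]
            _ ≤ _ := le_rfl
  have hsumx : ∑ c ∈ range D, ∑ j ∈ range (2 ^ n), p N (c + D * j) = 1 := by
    rw [← sum_range_mul_aux D (2 ^ n) hD (fun a => p N a)]
    exact hp.sum_eq_one N (Nat.mul_pos hD (by positivity))
  have hsumq : ∑ c ∈ range D, ∑ _j ∈ range (2 ^ n), p D c / 2 ^ n = 1 := by
    have : ∀ c ∈ range D, ∑ _j ∈ range (2 ^ n), p D c / 2 ^ n = p D c := by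
      intro c _
      rw [Finset.sum_const, card_range, nsmul_eq_mul]
      push_cast
      field_simp
    rw [Finset.sum_congr rfl this]
    exact hp.sum_eq_one D hD
  unfold ent
  rw [hN, sum_range_mul_aux D (2 ^ n) hD, ← hN]
  refine le_trans (Finset.sum_le_sum hfib) ?_
  rw [Finset.sum_add_distrib]
  have hexp : ∑ c ∈ range D, ∑ j ∈ range (2 ^ n), (p N (c + D * j) * Real.log (1 / δ) +
        (if p N (c + D * j) ≤ δ * p D c then p N (c + D * j) else 0) * (n * Real.log 2) +
        p D c / 2 ^ n) =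
      (∑ c ∈ range D, ∑ j ∈ range (2 ^ n), p N (c + D * j)) * Real.log (1 / δ) +
      (∑ c ∈ range D, ∑ j ∈ range (2 ^ n),
        (if p N (c + D * j) ≤ δ * p D c then p N (c + D * j) else 0)) * (n * Real.log 2) +
      ∑ c ∈ range D, ∑ _j ∈ range (2 ^ n), p D c / 2 ^ n := by
    simp only [Finset.sum_add_distrib, Finset.sum_mul]
  rw [hexp, hsumx, hsumq, one_mul]
  have := mul_le_mul_of_nonneg_right hL (by positivity : (0 : ℝ) ≤ n * Real.log 2)
  linarith

end Pool.Agent.Helper61.FR
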