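import Mathlib
import Pool.Agent.Helper61.FR.Defs

/-!
# FR-P4: elementary properties of the entropies of a profile

* `ent_le_log`: concavity (Jensen).
* `ent_mono`: `refine_eq` and `- (x + y) log (x + y) ≤ - x log x - y log y` for `x, y ≥ 0`
  (subadditivity of `negMulLog` on `[0, 1]`; here all the sums are at most `1`).
* `ent_step` (the conditional entropy decreases): put `B = 2 ^ n`.  For `c < D`, `u < s` put
  `c' = c s + u`.  By `inv_eq`,
  `ent (D s B) - ent (D s) = ∑ p (c' + D s j) log (p (D s) c' / p (D s B) (c' + D s j))`.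
  For fixed `c` and `j` sum over `u`: by the log-sum inequality
  `∑ x_u log (y_u / x_u) ≤ (∑ x_u) log (∑ y_u / ∑ x_u)` (concavity of `log` or of `negMulLog`),
  and `∑_u p (D s B) (c' + D s j) = p (D B) (c + D j)` by `refine_eq` (note
  `(c + D j) s + u = c' + D s j`), `∑_u p (D s) c' = p D c`.
* `ent_chain`: induction on `k` with `ent_step` (`s = 2 ^ ((k - 1) n)`).
-/

set_option autoImplicit false

open MeasureTheory Finset

namespace Pool.Agent.Helper61.FR

variable {p : ℕ → ℕ → ℝ}

namespace P4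

lemma sum_blocks (f : ℕ → ℝ) (D s : ℕ) :
    ∑ c ∈ range (D * s), f c = ∑ a ∈ range D, ∑ j ∈ range s, f (a * s + j) := by
  induction D with
  | zero => simp
  | succ D ih =>
    rw [add_mul, one_mul, Finset.sum_range_add, ih, Finset.sum_range_succ]

lemma sum_blocks' (f : ℕ → ℝ) (D B : ℕ) :
    ∑ c ∈ range (D * B), f c = ∑ c ∈ range D, ∑ j ∈ range B, f (c + D * j) := by
  rw [mul_comm, sum_blocks, Finset.sum_comm]
  refine Finset.sum_congr rfl fun c _ => Finset.sum_congr rfl fun j _ => ?_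
  congr 1
  ring

lemma negMulLog_sum_le {ι : Type*} (S : Finset ι) (x : ι → ℝ) (hx : ∀ u ∈ S, 0 ≤ x u) :
    Real.negMulLog (∑ u ∈ S, x u) ≤ ∑ u ∈ S, Real.negMulLog (x u) := by
  rw [Real.negMulLog, neg_mul, Finset.sum_mul, ← Finset.sum_neg_distrib]
  refine Finset.sum_le_sum fun u hu => ?_
  rw [Real.negMulLog, neg_mul]
  rcases (hx u hu).eq_or_lt with h | h
  · rw [← h]; simp
  · have h1 : x u ≤ ∑ u ∈ S, x u := Finset.single_le_sum hx hu
    have h2 : Real.log (x u) ≤ Real.log (∑ u ∈ S, x u) := Real.log_le_log h h1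
    have h3 := mul_le_mul_of_nonneg_left h2 h.le
    linarith

lemma logsum {ι : Type*} (S : Finset ι) (x y : ι → ℝ) (hx : ∀ u ∈ S, 0 ≤ x u)
    (hxy : ∀ u ∈ S, x u ≤ y u) :
    ∑ u ∈ S, x u * (Real.log (y u) - Real.log (x u)) ≤
      (∑ u ∈ S, x u) * (Real.log (∑ u ∈ S, y u) - Real.log (∑ u ∈ S, x u)) := by
  set X := ∑ u ∈ S, x u with hX
  set Y := ∑ u ∈ S, y u with hY
  have hX0 : 0 ≤ X := Finset.sum_nonneg hx
  have hXY : X ≤ Y := Finset.sum_le_sum hxy
  rcases hX0.eq_or_lt with h0 | h0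
  · have h1 : ∀ u ∈ S, x u = 0 := (Finset.sum_eq_zero_iff_of_nonneg hx).1 h0.symm
    rw [← h0, zero_mul]
    refine le_of_eq (Finset.sum_eq_zero fun u hu => ?_)
    rw [h1 u hu, zero_mul]
  · have hY0 : 0 < Y := lt_of_lt_of_le h0 hXY
    have h1 : ∀ u ∈ S, x u * (Real.log (y u) - Real.log (x u)) ≤
        x u * (Real.log Y - Real.log X) + (y u * (X / Y) - x u) := by
      intro u hu
      rcases (hx u hu).eq_or_lt with h | h
      · rw [← h]
        have h2 : 0 ≤ y u := le_trans (hx u hu) (hxy u hu)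
        have h3 : 0 ≤ X / Y := div_nonneg hX0 hY0.le
        have := mul_nonneg h2 h3
        linarith
      · have hy : 0 < y u := lt_of_lt_of_le h (hxy u hu)
        have h2 : 0 < y u * X / (x u * Y) := by positivity
        have h3 := Real.log_le_sub_one_of_pos h2
        rw [Real.log_div (by positivity) (by positivity), Real.log_mul hy.ne' h0.ne',
          Real.log_mul h.ne' hY0.ne'] at h3
        have h4 := mul_le_mul_of_nonneg_left h3 h.le
        have h5 : x u * (y u * X / (x u * Y) - 1) = y u * (X / Y) - x u := by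
          field_simp
        rw [h5] at h4
        linarith
    refine le_trans (Finset.sum_le_sum h1) ?_
    rw [Finset.sum_add_distrib, ← Finset.sum_mul, Finset.sum_sub_distrib, ← Finset.sum_mul]
    have h2 : Y * (X / Y) = X := by field_simp
    rw [← hX, ← hY, h2]
    linarith

end P4

theorem ent_le_log (hp : Profile p) (D : ℕ) (hD : 1 ≤ D) : ent p D ≤ Real.log D := by
  have hD0 : (0 : ℝ) < D := by exact_mod_cast hD
  have h := Real.concaveOn_negMulLog.le_map_sum (t := range D) (w := fun _ => 1 / (D : ℝ))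
    (p := fun a => p D a) (fun _ _ => by positivity)
    (by
      rw [Finset.sum_const, Finset.card_range, nsmul_eq_mul]
      field_simp)
    (fun a _ => hp.nonneg D a)
  simp only [smul_eq_mul] at h
  rw [← Finset.mul_sum, ← Finset.mul_sum, hp.sum_eq_one D hD, mul_one] at h
  have h1 : Real.negMulLog (1 / (D : ℝ)) = 1 / D * Real.log D := by
    rw [Real.negMulLog, one_div, Real.log_inv]
    ring
  rw [h1] at h
  exact le_of_mul_le_mul_left h (by positivity)

theorem ent_mono (hp : Profile p) (D s : ℕ) (hD : 1 ≤ D) (hs : 1 ≤ s) :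
    ent p D ≤ ent p (D * s) := by
  unfold ent
  rw [P4.sum_blocks (fun c => Real.negMulLog (p (D * s) c))]
  refine Finset.sum_le_sum fun a ha => ?_
  rw [hp.refine_eq D s a hD hs (Finset.mem_range.1 ha)]
  exact P4.negMulLog_sum_le _ _ fun j _ => hp.nonneg _ _

theorem ent_step (hp : Profile p) (D s n : ℕ) (hD : 1 ≤ D) (hs : 1 ≤ s) :
    ent p (D * s * 2 ^ n) - ent p (D * s) ≤ ent p (D * 2 ^ n) - ent p D := by
  have hDs : 1 ≤ D * s := Nat.mul_pos hD hs
  have hB : 1 ≤ 2 ^ n := Nat.one_le_two_pow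
  -- the conditional entropies
  have key : ∀ E : ℕ, 1 ≤ E → ent p (E * 2 ^ n) - ent p E = ∑ c ∈ range E, ∑ j ∈ range (2 ^ n),
      p (E * 2 ^ n) (c + E * j) * (Real.log (p E c) - Real.log (p (E * 2 ^ n) (c + E * j))) := by
    intro E hE
    unfold ent
    rw [P4.sum_blocks' (fun c => Real.negMulLog (p (E * 2 ^ n) c)), ← Finset.sum_sub_distrib]
    refine Finset.sum_congr rfl fun c hc => ?_
    have h1 := hp.inv_eq E n c hE (Finset.mem_range.1 hc)
    have h2 : Real.negMulLog (p E c) =
        ∑ j ∈ range (2 ^ n), -(p (E * 2 ^ n) (c + E * j) * Real.log (p E c)) := by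
      rw [Finset.sum_neg_distrib, ← Finset.sum_mul, ← h1, Real.negMulLog, neg_mul]
    rw [h2, ← Finset.sum_sub_distrib]
    refine Finset.sum_congr rfl fun j _ => ?_
    rw [Real.negMulLog]
    ring
  rw [key _ hDs, key _ hD]
  rw [P4.sum_blocks (fun c' => ∑ j ∈ range (2 ^ n), p (D * s * 2 ^ n) (c' + D * s * j) *
    (Real.log (p (D * s) c') - Real.log (p (D * s * 2 ^ n) (c' + D * s * j))))]
  refine Finset.sum_le_sum fun c hc => ?_
  rw [Finset.sum_comm]
  refine Finset.sum_le_sum fun j hj => ?_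
  rw [Finset.mem_range] at hc hj
  have hlt : c + D * j < D * 2 ^ n := by
    calc c + D * j < D + D * j := by omega
      _ = D * (j + 1) := by ring
      _ ≤ D * 2 ^ n := Nat.mul_le_mul_left _ hj
  have h1 : p (D * 2 ^ n) (c + D * j) =
      ∑ u ∈ range s, p (D * s * 2 ^ n) (c * s + u + D * s * j) := by
    rw [hp.refine_eq (D * 2 ^ n) s (c + D * j) (Nat.mul_pos hD hB) hs hlt]
    refine Finset.sum_congr rfl fun u _ => ?_
    congr 1
    · ring
    · ring
  have h2 : p D c = ∑ u ∈ range s, p (D * s) (c * s + u) := hp.refine_eq D s c hD hs hc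
  rw [h1, h2]
  refine P4.logsum _ _ _ (fun u _ => hp.nonneg _ _) fun u hu => ?_
  rw [Finset.mem_range] at hu
  have h3 : c * s + u < D * s := by
    calc c * s + u < c * s + s := by omega
      _ = (c + 1) * s := by ring
      _ ≤ D * s := Nat.mul_le_mul_right _ hc
  rw [hp.inv_eq (D * s) n (c * s + u) hDs h3]
  exact Finset.single_le_sum (f := fun j => p (D * s * 2 ^ n) (c * s + u + D * s * j))
    (fun j _ => hp.nonneg _ _) (Finset.mem_range.2 hj)

theorem ent_chain (hp : Profile p) (D n k : ℕ) (hD : 1 ≤ D) :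
    ent p (D * 2 ^ (k * n)) ≤ ent p D + k * (ent p (D * 2 ^ n) - ent p D) := by
  induction k with
  | zero => simp
  | succ k ih =>
    have h1 := ent_step hp D (2 ^ (k * n)) n hD Nat.one_le_two_pow
    have h2 : D * 2 ^ ((k + 1) * n) = D * 2 ^ (k * n) * 2 ^ n := by
      rw [add_mul, one_mul, pow_add, mul_assoc]
    rw [h2]
    push_cast
    linarith

end Pool.Agent.Helper61.FR
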