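import Mathlib
import Pool.Agent.Helper61.FR.Defs

/-!
# FR-P5: a thin set of large measure

Proof.  `U = {u < 2 ^ (20 s) | 2 ^ (- 9 s) ≤ p u}`.  Its cardinality is at most `2 ^ (9 s)`, so
`48 |U| ^ 2 ≤ 48 * 2 ^ (18 s) < 2 ^ (20 s)` as `48 < 2 ^ (2 s)`.  Off `U`,
`9 s log 2 * p u ≤ negMulLog (p u)`, hence `9 s log 2 * ∑_{u ∉ U} p u ≤ ent ≤ s log 2 / 4` and
`∑_{u ∉ U} p u ≤ 1 / 36 ≤ 1 / 32`.
-/

set_option autoImplicit false

open MeasureTheory Finset

namespace Pool.Agent.Helper61.FR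

theorem exists_thin {p : ℕ → ℕ → ℝ} (hp : Profile p) (s : ℕ) (hs : 3 ≤ s)
    (hH : ent p (2 ^ (20 * s)) ≤ s * Real.log 2 / 4) :
    ∃ U : Finset ℕ, U ⊆ range (2 ^ (20 * s)) ∧ 48 * U.card ^ 2 < 2 ^ (20 * s) ∧
      31 / 32 ≤ ∑ u ∈ U, p (2 ^ (20 * s)) u := by
  classical
  set D : ℕ := 2 ^ (20 * s) with hD
  have hD1 : 1 ≤ D := Nat.one_le_two_pow
  have hsum := hp.sum_eq_one D hD1
  set U := (range D).filter (fun u => (1 / 2 ^ (9 * s) : ℝ) ≤ p D u) with hU
  have hle1 : ∀ u ∈ range D, p D u ≤ 1 := fun u hu => by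
    rw [← hsum]
    exact Finset.single_le_sum (f := fun a => p D a) (fun a _ => hp.nonneg D a) hu
  have hlog2 : 0 < Real.log 2 := Real.log_pos (by norm_num)
  have hs0 : (0 : ℝ) < s := by
    have : 0 < s := by omega
    exact_mod_cast this
  refine ⟨U, Finset.filter_subset _ _, ?_, ?_⟩
  · -- cardinality
    have h1 : (U.card : ℝ) * (1 / 2 ^ (9 * s)) ≤ 1 := by
      calc (U.card : ℝ) * (1 / 2 ^ (9 * s)) = ∑ u ∈ U, (1 / 2 ^ (9 * s) : ℝ) := by
            rw [Finset.sum_const, nsmul_eq_mul]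
        _ ≤ ∑ u ∈ U, p D u := Finset.sum_le_sum fun u hu => (Finset.mem_filter.1 hu).2
        _ ≤ ∑ u ∈ range D, p D u :=
            Finset.sum_le_sum_of_subset_of_nonneg (Finset.filter_subset _ _)
              (fun a _ _ => hp.nonneg D a)
        _ = 1 := hsum
    have h2 : U.card ≤ 2 ^ (9 * s) := by
      have h3 : (U.card : ℝ) ≤ 2 ^ (9 * s) := by
        have hpos : (0 : ℝ) < 2 ^ (9 * s) := by positivity
        rw [mul_one_div, div_le_one hpos] at h1
        exact h1
      exact_mod_cast h3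
    calc 48 * U.card ^ 2 ≤ 48 * (2 ^ (9 * s)) ^ 2 :=
          Nat.mul_le_mul_left _ (Nat.pow_le_pow_left h2 2)
      _ < 2 ^ (2 * s) * (2 ^ (9 * s)) ^ 2 := by
          apply Nat.mul_lt_mul_of_pos_right _ (by positivity)
          calc 48 < 2 ^ (2 * 3) := by norm_num
            _ ≤ 2 ^ (2 * s) := Nat.pow_le_pow_right (by norm_num) (by omega)
      _ = D := by
          rw [hD, ← pow_mul, ← pow_add]
          congr 1
          ring
  · -- measure
    set V := (range D).filter (fun u => ¬ (1 / 2 ^ (9 * s) : ℝ) ≤ p D u) with hV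
    have hsplit : ∑ u ∈ U, p D u + ∑ u ∈ V, p D u = 1 := by
      rw [← hsum]
      exact Finset.sum_filter_add_sum_filter_not (range D) _ _
    have hpt : ∀ u ∈ V, (9 * s * Real.log 2) * p D u ≤ Real.negMulLog (p D u) := by
      intro u hu
      have h1 := (Finset.mem_filter.1 hu).2
      push Not at h1
      rcases (hp.nonneg D u).eq_or_lt with h0 | h0
      · rw [← h0]; simp
      · have h2 : Real.log (p D u) ≤ -(9 * s * Real.log 2) := by
          have h3 : Real.log (p D u) ≤ Real.log (1 / 2 ^ (9 * s)) :=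
            Real.log_le_log h0 h1.le
          rw [one_div, Real.log_inv, Real.log_pow] at h3
          push_cast at h3
          linarith
        unfold Real.negMulLog
        nlinarith
    have hVent : ∑ u ∈ V, Real.negMulLog (p D u) ≤ ent p D := by
      unfold ent
      apply Finset.sum_le_sum_of_subset_of_nonneg (Finset.filter_subset _ _)
      intro a ha _
      exact Real.negMulLog_nonneg (hp.nonneg D a) (hle1 a ha)
    have hfin : (9 * s * Real.log 2) * ∑ u ∈ V, p D u ≤ s * Real.log 2 / 4 := by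
      rw [Finset.mul_sum]
      exact (Finset.sum_le_sum hpt).trans (hVent.trans hH)
    have hpos : 0 < s * Real.log 2 := mul_pos hs0 hlog2
    have hV36 : ∑ u ∈ V, p D u ≤ 1 / 36 := by
      by_contra hcon
      push Not at hcon
      nlinarith
    linarith

end Pool.Agent.Helper61.FR
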