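import Mathlib
import Pool.Agent.Helper61.FR.Defs

/-!
# FR-P6: typical points visit a thin set most of the time

Proof.  Let `F` be the union of the closed arcs `[u / 2 ^ r, (u + 1) / 2 ^ r]`, `u ∈ U`, in the
circle `AddCircle (1 : ℝ)` (compact) and `W` its open neighbourhood of radius `(1 / 4) / 2 ^ r`.
By Urysohn there is a continuous `f : AddCircle 1 → [0, 1]` with `f = 1` on `F`, `f = 0` off `W`
(e.g. `f y = max 0 (1 - 4 * 2 ^ r * dist (y, F))`).  By `span_fourier_closure_eq_top` there is a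
finite combination `P = ∑ c_m fourier m` with `‖f - P‖ ≤ 1 / 64` everywhere.  `S` is the set of
`|m|`, `m ≠ 0`, occurring in `P` and `η (1 + ∑ |c_m|) = 1 / 64`.  If `x` is not in `dev μ M N m η`
for `m ∈ S` then the averages of the characters `e (- m y)` are also close to their means
(complex conjugation), so `|avg P (x) - ∫ P| ≤ 1 / 64`, hence
`avg f (x) ≥ ∫ f - 3 / 64 ≥ 31 / 32 - 3 / 64 = 59 / 64 ≥ 7 / 8`.  Finally
`f (y) ≤ 1` and `f (y) = 0` unless `y ∈ nbhd r U`, so `M N avg f (x) ≤ cnt M N (nbhd r U) x`.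
`∫ f ≥ μ (F) ≥ ∑_{u ∈ U} pr μ (2 ^ r) u`: the sets `{x | ⌊2 ^ r x⌋₊ = u}` are disjoint, and
on them (for `x ≥ 0`) `u / 2 ^ r ≤ x < (u + 1) / 2 ^ r`.
-/

set_option autoImplicit false

open MeasureTheory Finset

namespace Pool.Agent.Helper61.FR

namespace P6

lemma e_neg (y : ℝ) : e (-y) = (starRingEnd ℂ) (e y) := by
  unfold e
  rw [← Complex.exp_conj]
  congr 1
  simp only [map_mul, Complex.conj_ofReal, Complex.conj_I, map_ofNat]
  push_cast
  ring

lemma norm_e (y : ℝ) : ‖e y‖ = 1 := by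
  unfold e
  have : (2 * Real.pi * y * Complex.I : ℂ) = ((2 * Real.pi * y : ℝ) : ℂ) * Complex.I := by
    push_cast; ring
  rw [this, Complex.norm_exp_ofReal_mul_I]

lemma continuous_e : Continuous e := by
  unfold e
  fun_prop

lemma fourier_eq (m : ℤ) (y : ℝ) :
    fourier m (y : AddCircle (1 : ℝ)) = e ((m : ℝ) * y) := by
  rw [fourier_coe_apply]
  unfold e
  congr 1
  push_cast
  ring

lemma avg_sum {ι : Type} (M N : ℕ) (s : Finset ι) (c : ι → ℂ) (g : ι → ℝ → ℂ) (x : ℝ) :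
    avg M N (fun y => ∑ m ∈ s, c m * g m y) x = ∑ m ∈ s, c m * avg M N (g m) x := by
  unfold avg
  have h : (∑ i ∈ range M, ∑ k ∈ range N, ∑ m ∈ s, c m * g m (2 ^ i * 3 ^ k * x))
      = ∑ m ∈ s, c m * ∑ i ∈ range M, ∑ k ∈ range N, g m (2 ^ i * 3 ^ k * x) := by
    rw [Finset.sum_congr rfl (fun i _ => Finset.sum_comm), Finset.sum_comm]
    refine Finset.sum_congr rfl fun m _ => ?_
    rw [Finset.mul_sum]
    refine Finset.sum_congr rfl fun i _ => ?_
    rw [Finset.mul_sum]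
  rw [h, Finset.sum_div]
  refine Finset.sum_congr rfl fun m _ => ?_
  rw [mul_div_assoc]

lemma avg_close {M N : ℕ} (hM : 1 ≤ M) (hN : 1 ≤ N) {f g : ℝ → ℂ} {ε : ℝ}
    (h : ∀ y, ‖f y - g y‖ ≤ ε) (x : ℝ) : ‖avg M N f x - avg M N g x‖ ≤ ε := by
  have hMN : (0 : ℝ) < (M : ℝ) * N := by
    have h1 : (0 : ℝ) < M := by exact_mod_cast hM
    have h2 : (0 : ℝ) < N := by exact_mod_cast hN
    positivity
  unfold avg
  rw [← sub_div, ← Finset.sum_sub_distrib, norm_div]
  have hden : ‖((M : ℂ) * N)‖ = (M : ℝ) * N := by simp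
  rw [hden, div_le_iff₀ hMN]
  calc ‖∑ i ∈ range M, ((∑ k ∈ range N, f (2 ^ i * 3 ^ k * x)) -
        ∑ k ∈ range N, g (2 ^ i * 3 ^ k * x))‖
      ≤ ∑ i ∈ range M, ∑ k ∈ range N, ε := by
        refine (norm_sum_le _ _).trans (Finset.sum_le_sum fun i _ => ?_)
        rw [← Finset.sum_sub_distrib]
        exact (norm_sum_le _ _).trans (Finset.sum_le_sum fun k _ => h _)
    _ = ε * ((M : ℝ) * N) := by
        simp only [Finset.sum_const, Finset.card_range, nsmul_eq_mul]
        ring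

lemma avg_conj (M N : ℕ) (f : ℝ → ℂ) (x : ℝ) :
    avg M N (fun y => (starRingEnd ℂ) (f y)) x = (starRingEnd ℂ) (avg M N f x) := by
  unfold avg
  simp [map_sum]

lemma avg_one {M N : ℕ} (hM : 1 ≤ M) (hN : 1 ≤ N) (x : ℝ) :
    avg M N (fun _ => 1) x = 1 := by
  unfold avg
  have h1 : (M : ℂ) ≠ 0 := by exact_mod_cast (by omega : M ≠ 0)
  have h2 : (N : ℂ) ≠ 0 := by exact_mod_cast (by omega : N ≠ 0)
  simp only [Finset.sum_const, Finset.card_range, nsmul_eq_mul, mul_one]
  field_simp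

/-- a deviation bound for all characters -/
lemma char_bound {μ : Measure ℝ} (h : Inv23 μ) {M N : ℕ} (hM : 1 ≤ M) (hN : 1 ≤ N) {η : ℝ}
    (hη : 0 < η) (m : ℤ) (x : ℝ) (hx : m ≠ 0 → x ∉ dev μ M N m.natAbs η) :
    ‖avg M N (fun y => e ((m : ℝ) * y)) x - ∫ y, e ((m : ℝ) * y) ∂μ‖ ≤ η := by
  have := h.prob
  rcases lt_trichotomy m 0 with hm | hm | hm
  · have h1 := hx (by omega)
    unfold dev at h1
    rw [Set.mem_ofPred_eq, not_lt] at h1
    have hcast : ((m.natAbs : ℕ) : ℝ) = -(m : ℝ) := by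
      obtain ⟨n, rfl⟩ : ∃ n : ℕ, m = -(n : ℤ) := ⟨m.natAbs, by omega⟩
      simp
    have he : (fun y : ℝ => e ((m : ℝ) * y))
        = fun y => (starRingEnd ℂ) (e (((m.natAbs : ℕ) : ℝ) * y)) := by
      funext y
      rw [← e_neg, hcast]
      congr 1
      ring
    rw [he, avg_conj, integral_conj, ← map_sub, RCLike.norm_conj]
    exact h1
  · subst hm
    have he : (fun y : ℝ => e (((0 : ℤ) : ℝ) * y)) = fun _ => 1 := by
      funext y
      simp [e]
    rw [he, avg_one hM hN]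
    simp [hη.le]
  · have h1 := hx (by omega)
    unfold dev at h1
    rw [Set.mem_ofPred_eq, not_lt] at h1
    have hcast : ((m.natAbs : ℕ) : ℝ) = (m : ℝ) := by
      obtain ⟨n, rfl⟩ : ∃ n : ℕ, m = (n : ℤ) := ⟨m.natAbs, by omega⟩
      simp
    rw [hcast] at h1
    exact h1

/-- the closed arcs -/
def arcs (r : ℕ) (U : Finset ℕ) : Set (AddCircle (1 : ℝ)) :=
  {z | ∃ u ∈ U, ∃ w : ℝ, (u : ℝ) / 2 ^ r ≤ w ∧ w ≤ (u + 1) / 2 ^ r ∧ (w : AddCircle (1 : ℝ)) = z}

/-- the bump function -/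
noncomputable def bump (r : ℕ) (U : Finset ℕ) (z : AddCircle (1 : ℝ)) : ℝ :=
  max 0 (1 - 4 * 2 ^ r * Metric.infDist z (arcs r U))

lemma continuous_bump (r : ℕ) (U : Finset ℕ) : Continuous (bump r U) := by
  unfold bump
  exact continuous_const.max
    (continuous_const.sub (continuous_const.mul (Metric.continuous_infDist_pt _)))

lemma bump_nonneg (r : ℕ) (U : Finset ℕ) (z : AddCircle (1 : ℝ)) : 0 ≤ bump r U z :=
  le_max_left _ _

lemma bump_le_one (r : ℕ) (U : Finset ℕ) (z : AddCircle (1 : ℝ)) : bump r U z ≤ 1 := by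
  unfold bump
  refine max_le zero_le_one ?_
  have h1 : 0 ≤ Metric.infDist z (arcs r U) := Metric.infDist_nonneg
  have h2 : (0 : ℝ) < 4 * 2 ^ r := by positivity
  nlinarith

lemma bump_eq_one (r : ℕ) (U : Finset ℕ) (z : AddCircle (1 : ℝ)) (hz : z ∈ arcs r U) :
    bump r U z = 1 := by
  unfold bump
  rw [Metric.infDist_zero_of_mem hz]
  simp

lemma mem_nbhd_of_bump (r : ℕ) (U : Finset ℕ) (hne : (arcs r U).Nonempty) (y : ℝ)
    (hy : bump r U (y : AddCircle (1 : ℝ)) ≠ 0) : y ∈ nbhd r U := by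
  have hpos : (0 : ℝ) < 2 ^ r := by positivity
  have h1 : Metric.infDist (y : AddCircle (1 : ℝ)) (arcs r U) < 1 / 4 / 2 ^ r := by
    by_contra hcon
    push Not at hcon
    apply hy
    unfold bump
    apply max_eq_left
    have : 1 ≤ 4 * 2 ^ r * Metric.infDist (y : AddCircle (1 : ℝ)) (arcs r U) := by
      have h3 : 4 * 2 ^ r * (1 / 4 / 2 ^ r : ℝ) = 1 := by field_simp
      calc (1 : ℝ) = 4 * 2 ^ r * (1 / 4 / 2 ^ r : ℝ) := h3.symm
        _ ≤ _ := by gcongr
    linarith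
  obtain ⟨z, hz, hd⟩ := (Metric.infDist_lt_iff hne).1 h1
  obtain ⟨u, hu, w, hw1, hw2, rfl⟩ := hz
  rw [dist_eq_norm, ← AddCircle.coe_sub, UnitAddCircle.norm_eq] at hd
  refine ⟨u, hu, round (y - w), ?_⟩
  have h4 : y - (round (y - w) : ℝ) - ((u : ℝ) + 1 / 2) / 2 ^ r
      = (y - w - round (y - w)) + (w - ((u : ℝ) + 1 / 2) / 2 ^ r) := by ring
  rw [h4]
  refine (abs_add_le _ _).trans ?_
  have h5 : |w - ((u : ℝ) + 1 / 2) / 2 ^ r| ≤ 1 / 2 / 2 ^ r := by
    have e1 : ((u : ℝ) + 1 / 2) / 2 ^ r = (u : ℝ) / 2 ^ r + 1 / 2 / 2 ^ r := by ring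
    have e2 : ((u : ℝ) + 1) / 2 ^ r = (u : ℝ) / 2 ^ r + 1 / 2 ^ r := by ring
    have e3 : (1 : ℝ) / 2 ^ r = 1 / 2 / 2 ^ r + 1 / 2 / 2 ^ r := by ring
    rw [abs_le]
    constructor <;> linarith
  have h6 : (3 : ℝ) / 4 / 2 ^ r = 1 / 4 / 2 ^ r + 1 / 2 / 2 ^ r := by ring
  linarith

end P6

open P6

theorem typical {μ : Measure ℝ} (h : Inv23 μ) (r : ℕ) (U : Finset ℕ)
    (hU : 31 / 32 ≤ ∑ u ∈ U, pr μ (2 ^ r) u) :
    ∃ (S : Finset ℕ) (η : ℝ), 0 < η ∧ (∀ m ∈ S, 1 ≤ m) ∧ ∀ M N : ℕ, 1 ≤ M → 1 ≤ N →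
      ∀ x : ℝ, (∀ m ∈ S, x ∉ dev μ M N m η) → 7 * (M * N) ≤ 8 * cnt M N (nbhd r U) x := by
  classical
  have := h.prob
  have hUne : U.Nonempty := by
    rcases U.eq_empty_or_nonempty with h0 | h0
    · subst h0
      norm_num at hU
    · exact h0
  have hne : (arcs r U).Nonempty := by
    obtain ⟨u, hu⟩ := hUne
    refine ⟨(((u : ℝ) / 2 ^ r : ℝ) : AddCircle (1 : ℝ)), u, hu, (u : ℝ) / 2 ^ r, le_rfl, ?_, rfl⟩
    gcongr
    linarith
  -- the continuous complex function
  let fC : C(AddCircle (1 : ℝ), ℂ) :=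
    ⟨fun z => (bump r U z : ℂ), Complex.continuous_ofReal.comp (continuous_bump r U)⟩
  have hmem : fC ∈ (Submodule.span ℂ (Set.range (@fourier (1 : ℝ)))).topologicalClosure := by
    rw [span_fourier_closure_eq_top]
    trivial
  obtain ⟨P, hP, hdist⟩ : ∃ P ∈ Submodule.span ℂ (Set.range (@fourier (1 : ℝ))),
      dist fC P < 1 / 64 := by
    have h1 : fC ∈ closure (Submodule.span ℂ (Set.range (@fourier (1 : ℝ))) :
      Set C(AddCircle (1 : ℝ), ℂ)) := by
      rw [← Submodule.topologicalClosure_coe]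
      exact hmem
    obtain ⟨P, hP, hd⟩ := Metric.mem_closure_iff.1 h1 (1 / 64) (by norm_num)
    exact ⟨P, hP, hd⟩
  obtain ⟨c, hc⟩ := Finsupp.mem_span_range_iff_exists_finsupp.1 hP
  have hPy : ∀ y : ℝ, P (y : AddCircle (1 : ℝ)) = ∑ m ∈ c.support, c m * e ((m : ℝ) * y) := by
    intro y
    rw [← hc, Finsupp.sum]
    simp only [ContinuousMap.coe_sum, Finset.sum_apply, ContinuousMap.smul_apply, smul_eq_mul,
      fourier_eq]
  have hclose : ∀ y : ℝ, ‖(bump r U (y : AddCircle (1 : ℝ)) : ℂ)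
      - ∑ m ∈ c.support, c m * e ((m : ℝ) * y)‖ ≤ 1 / 64 := by
    intro y
    rw [← hPy y, ← dist_eq_norm]
    exact (ContinuousMap.dist_apply_le_dist (f := fC) (g := P)
      (y : AddCircle (1 : ℝ))).trans hdist.le
  set K : ℝ := ∑ m ∈ c.support, ‖c m‖ with hK
  have hK0 : 0 ≤ K := Finset.sum_nonneg fun m _ => norm_nonneg _
  set η : ℝ := 1 / 64 / (1 + K) with hη
  have hηpos : 0 < η := by positivity
  have hKη : K * η ≤ 1 / 64 := by
    rw [hη, mul_div_assoc', div_le_iff₀ (by positivity)]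
    nlinarith
  refine ⟨(c.support.filter (fun m => m ≠ 0)).image Int.natAbs, η, hηpos, ?_, ?_⟩
  · intro m hm
    rw [Finset.mem_image] at hm
    obtain ⟨a, ha, rfl⟩ := hm
    rw [Finset.mem_filter] at ha
    have := ha.2
    omega
  · intro M N hM hN x hx
    have hchar : ∀ m ∈ c.support,
        ‖avg M N (fun y => e ((m : ℝ) * y)) x - ∫ y, e ((m : ℝ) * y) ∂μ‖ ≤ η := by
      intro m hm
      refine char_bound h hM hN hηpos m x fun hm0 => ?_
      exact hx _ (Finset.mem_image.2 ⟨m, Finset.mem_filter.2 ⟨hm, hm0⟩, rfl⟩)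
    -- integrability
    have hint_e : ∀ m : ℤ, Integrable (fun y : ℝ => e ((m : ℝ) * y)) μ := by
      intro m
      refine Integrable.of_bound ?_ 1 (Filter.Eventually.of_forall fun y => (norm_e _).le)
      exact (continuous_e.comp (continuous_const.mul continuous_id)).aestronglyMeasurable
    have hcontf : Continuous fun y : ℝ => bump r U (y : AddCircle (1 : ℝ)) :=
      (continuous_bump r U).comp (AddCircle.continuous_mk' 1)
    have hint_f : Integrable (fun y : ℝ => bump r U (y : AddCircle (1 : ℝ))) μ := by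
      refine Integrable.of_bound hcontf.aestronglyMeasurable 1
        (Filter.Eventually.of_forall fun y => ?_)
      rw [Real.norm_eq_abs, abs_of_nonneg (bump_nonneg _ _ _)]
      exact bump_le_one _ _ _
    have hint_P : Integrable (fun y : ℝ => ∑ m ∈ c.support, c m * e ((m : ℝ) * y)) μ :=
      integrable_finsetSum _ fun m _ => (hint_e m).const_mul _
    have hint_fC : Integrable (fun y : ℝ => (bump r U (y : AddCircle (1 : ℝ)) : ℂ)) μ :=
      hint_f.ofReal
    -- the three estimates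
    have h1 : ‖avg M N (fun y : ℝ => (bump r U (y : AddCircle (1 : ℝ)) : ℂ)) x
        - avg M N (fun y => ∑ m ∈ c.support, c m * e ((m : ℝ) * y)) x‖ ≤ 1 / 64 :=
      avg_close hM hN hclose x
    have h2 : ‖avg M N (fun y => ∑ m ∈ c.support, c m * e ((m : ℝ) * y)) x
        - ∫ y, ∑ m ∈ c.support, c m * e ((m : ℝ) * y) ∂μ‖ ≤ 1 / 64 := by
      rw [avg_sum, integral_finsetSum _ fun m _ => (hint_e m).const_mul _,
        ← Finset.sum_sub_distrib]
      refine (norm_sum_le _ _).trans ?_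
      calc ∑ m ∈ c.support, ‖c m * avg M N (fun y => e ((m : ℝ) * y)) x
            - ∫ y, c m * e ((m : ℝ) * y) ∂μ‖
          ≤ ∑ m ∈ c.support, ‖c m‖ * η := by
            refine Finset.sum_le_sum fun m hm => ?_
            rw [integral_const_mul, ← mul_sub, norm_mul]
            exact mul_le_mul_of_nonneg_left (hchar m hm) (norm_nonneg _)
        _ = K * η := by rw [hK, Finset.sum_mul]
        _ ≤ 1 / 64 := hKη
    have h3 : ‖(∫ y, (bump r U (y : AddCircle (1 : ℝ)) : ℂ) ∂μ)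
        - ∫ y, ∑ m ∈ c.support, c m * e ((m : ℝ) * y) ∂μ‖ ≤ 1 / 64 := by
      rw [← integral_sub hint_fC hint_P]
      have := norm_integral_le_of_norm_le_const (μ := μ) (C := 1 / 64)
        (f := fun y : ℝ => (bump r U (y : AddCircle (1 : ℝ)) : ℂ)
          - ∑ m ∈ c.support, c m * e ((m : ℝ) * y)) (Filter.Eventually.of_forall hclose)
      simpa using this
    have h4 : ‖avg M N (fun y : ℝ => (bump r U (y : AddCircle (1 : ℝ)) : ℂ)) x
        - ∫ y, (bump r U (y : AddCircle (1 : ℝ)) : ℂ) ∂μ‖ ≤ 3 / 64 := by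
      set A := avg M N (fun y : ℝ => (bump r U (y : AddCircle (1 : ℝ)) : ℂ)) x
      set B := avg M N (fun y => ∑ m ∈ c.support, c m * e ((m : ℝ) * y)) x
      set C := ∫ y, ∑ m ∈ c.support, c m * e ((m : ℝ) * y) ∂μ
      set D := ∫ y, (bump r U (y : AddCircle (1 : ℝ)) : ℂ) ∂μ
      have e1 : A - D = (A - B) + (B - C) - (D - C) := by ring
      rw [e1]
      refine (norm_sub_le _ _).trans ?_
      have := norm_add_le (A - B) (B - C)
      linarith
    -- the integral of the bump function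
    have hintlow : 31 / 32 ≤ ∫ y, bump r U (y : AddCircle (1 : ℝ)) ∂μ := by
      let E : ℕ → Set ℝ := fun u => {y : ℝ | ⌊((2 ^ r : ℕ) : ℝ) * y⌋₊ = u}
      have hEm : ∀ u, MeasurableSet (E u) := by
        intro u
        exact (Nat.measurable_floor.comp (measurable_const.mul measurable_id))
          (measurableSet_singleton u)
      have hdisj : (U : Set ℕ).PairwiseDisjoint E := by
        intro u _ v _ huv
        refine Set.disjoint_left.2 fun y hy1 hy2 => huv ?_
        exact hy1.symm.trans hy2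
      have hsum : ∑ u ∈ U, pr μ (2 ^ r) u = μ.real (⋃ u ∈ U, E u) := by
        rw [measureReal_biUnion_finset hdisj (fun u _ => hEm u)]
        rfl
      have hEU : MeasurableSet (⋃ u ∈ U, E u) := U.measurableSet_biUnion fun u _ => hEm u
      calc (31 : ℝ) / 32 ≤ ∑ u ∈ U, pr μ (2 ^ r) u := hU
        _ = μ.real (⋃ u ∈ U, E u) := hsum
        _ = ∫ y, (⋃ u ∈ U, E u).indicator (fun _ => (1 : ℝ)) y ∂μ := by
            rw [integral_indicator hEU]
            simp
        _ ≤ ∫ y, bump r U (y : AddCircle (1 : ℝ)) ∂μ := by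
            refine integral_mono_ae ((integrable_const (1 : ℝ)).indicator hEU) hint_f ?_
            filter_upwards [h.supp] with y hy
            by_cases hyE : y ∈ ⋃ u ∈ U, E u
            · rw [Set.indicator_of_mem hyE]
              rw [Set.mem_iUnion₂] at hyE
              obtain ⟨u, hu, hyu⟩ := hyE
              have hpos : (0 : ℝ) < 2 ^ r := by positivity
              have hyu' : ⌊((2 ^ r : ℕ) : ℝ) * y⌋₊ = u := hyu
              have hcast : ((2 ^ r : ℕ) : ℝ) = 2 ^ r := by push_cast; rfl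
              rw [hcast] at hyu'
              have hnn : 0 ≤ (2 : ℝ) ^ r * y := mul_nonneg hpos.le hy.1
              have ha := Nat.floor_le hnn
              have hb := Nat.lt_floor_add_one ((2 : ℝ) ^ r * y)
              rw [hyu'] at ha hb
              have : bump r U (y : AddCircle (1 : ℝ)) = 1 := by
                apply bump_eq_one
                refine ⟨u, hu, y, ?_, ?_, rfl⟩
                · rw [div_le_iff₀ hpos]; linarith
                · rw [le_div_iff₀ hpos]; linarith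
              exact this.ge
            · rw [Set.indicator_of_notMem hyE]
              exact bump_nonneg _ _ _
    -- the average of the bump function
    have hMN : (0 : ℝ) < (M : ℝ) * N := by
      have h1 : (0 : ℝ) < M := by exact_mod_cast hM
      have h2 : (0 : ℝ) < N := by exact_mod_cast hN
      positivity
    have hA : avg M N (fun y : ℝ => (bump r U (y : AddCircle (1 : ℝ)) : ℂ)) x
        = (((∑ i ∈ range M, ∑ k ∈ range N,
            bump r U (((2 : ℝ) ^ i * 3 ^ k * x : ℝ) : AddCircle (1 : ℝ))) / (M * N) : ℝ) : ℂ) := by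
      unfold avg
      push_cast
      rfl
    have hD : (∫ y, (bump r U (y : AddCircle (1 : ℝ)) : ℂ) ∂μ)
        = ((∫ y, bump r U (y : AddCircle (1 : ℝ)) ∂μ : ℝ) : ℂ) := integral_ofReal
    rw [hA, hD, ← Complex.ofReal_sub, Complex.norm_real, Real.norm_eq_abs] at h4
    have h5 := (abs_le.1 h4).1
    set Sf : ℝ := ∑ i ∈ range M, ∑ k ∈ range N,
        bump r U (((2 : ℝ) ^ i * 3 ^ k * x : ℝ) : AddCircle (1 : ℝ)) with hSf
    have h6 : 7 / 8 * ((M : ℝ) * N) ≤ Sf := by
      have : 7 / 8 ≤ Sf / ((M : ℝ) * N) := by linarith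
      rwa [le_div_iff₀ hMN] at this
    have h7 : Sf ≤ (cnt M N (nbhd r U) x : ℝ) := by
      rw [hSf, ← Finset.sum_product']
      unfold cnt
      rw [Finset.card_filter]
      push_cast
      refine Finset.sum_le_sum fun t _ => ?_
      split_ifs with ht
      · exact bump_le_one _ _ _
      · by_contra hcon
        push Not at hcon
        exact ht (mem_nbhd_of_bump r U hne _ hcon.ne')
    have h8 : 7 * ((M : ℝ) * N) ≤ 8 * (cnt M N (nbhd r U) x : ℝ) := by linarith
    exact_mod_cast h8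

end Pool.Agent.Helper61.FR
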