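import Mathlib
import Pool.Agent.Helper61.FR.Defs

/-!
# FR-P2: the Bessel inequality on a fibre of `x ↦ 2 ^ n x`

Proof.  Put `N = 2 ^ n` and `m = 2 ^ v m₁` with `m₁` odd; the hypothesis gives `v + M + 3 ≤ n`.
Expanding the square and summing over `j < 2 ^ n` first (orthogonality: the sum over `j` of
`e (m (2 ^ i 3 ^ k - 2 ^ i' 3 ^ k') j / 2 ^ n)` is `2 ^ n` if `2 ^ n ∣ m (2 ^ i 3 ^ k - 2 ^ i' 3 ^ k')`
and `0` otherwise), the left side is at most `2 ^ n / (M N) ^ 2` times the number of pairs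
`((i, k), (i', k'))` with that divisibility.  For `i < i'` the 2-adic valuation of
`2 ^ i 3 ^ k - 2 ^ i' 3 ^ k'` is `i < M`, so there are none.  For `i = i'` the condition is
`2 ^ (n - v - i) ∣ 3 ^ k - 3 ^ k'`, i.e. `2 ^ (n - v - i - 2) ∣ k - k'` (part (a)), and there are
`N * 2 ^ (v + i + 2)` pairs `(k, k')`.  The sum over `i < M` is at most `N 2 ^ (v + 2 + M)`, and
`2 ^ v ≤ m`.
-/

set_option autoImplicit false

open MeasureTheory Finset

namespace Pool.Agent.Helper61.FR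

theorem P2.two_pow_dvd_three_pow_sub_one (L n : ℕ) (hL : 3 ≤ L) :
    2 ^ L ∣ 3 ^ n - 1 ↔ 2 ^ (L - 2) ∣ n := by
  rcases Nat.eq_zero_or_pos n with rfl | hn
  · simp
  rcases Nat.even_or_odd n with he | ho
  · have h := padicValNat.pow_two_sub_pow (x := 3) (y := 1) (by norm_num) (by norm_num) (by norm_num)
      hn.ne' he
    rw [one_pow] at h
    have h4 : padicValNat 2 (3 + 1) = 2 := by
      have : (3 + 1 : ℕ) = 2 ^ 2 := by norm_num
      rw [this, padicValNat.prime_pow]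
    have h2 : padicValNat 2 (3 - 1) = 1 := by
      have : (3 - 1 : ℕ) = 2 ^ 1 := by norm_num
      rw [this, padicValNat.prime_pow]
    rw [h4, h2] at h
    have hne : 3 ^ n - 1 ≠ 0 := by
      have : 3 ^ 1 ≤ 3 ^ n := Nat.pow_le_pow_right (by norm_num) hn
      omega
    have : Fact (Nat.Prime 2) := ⟨Nat.prime_two⟩
    rw [padicValNat_dvd_iff_le hne, padicValNat_dvd_iff_le hn.ne']
    omega
  · constructor
    · intro h
      exfalso
      have h8 : 2 ^ 3 ∣ 3 ^ n - 1 := (pow_dvd_pow 2 hL).trans h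
      obtain ⟨j, rfl⟩ := ho
      have h1 : 3 ^ (2 * j + 1) % 8 = 3 := by
        rw [pow_succ, pow_mul, Nat.mul_mod, Nat.pow_mod]
        norm_num
      have hpos : 0 < 3 ^ (2 * j + 1) := by positivity
      generalize 3 ^ (2 * j + 1) = t at h8 h1 hpos
      omega
    · intro h
      exfalso
      have h2 : 2 ∣ n := (dvd_pow_self 2 (by omega)).trans h
      obtain ⟨j, rfl⟩ := ho
      omega

/-- **(a)** the order of `3` modulo `2 ^ L` is `2 ^ (L - 2)`. -/
theorem three_pow_modEq (L k k' : ℕ) (hL : 3 ≤ L) :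
    3 ^ k ≡ 3 ^ k' [MOD 2 ^ L] ↔ k ≡ k' [MOD 2 ^ (L - 2)] := by
  wlog hk : k ≤ k' with H
  · have h := H L k' k hL (by omega)
    constructor
    · intro h1; exact (h.1 h1.symm).symm
    · intro h1; exact (h.2 h1.symm).symm
  obtain ⟨n, rfl⟩ := Nat.exists_eq_add_of_le hk
  rw [Nat.modEq_iff_dvd' (Nat.pow_le_pow_right (by norm_num) hk), Nat.modEq_iff_dvd' hk]
  have h1 : 3 ^ (k + n) - 3 ^ k = 3 ^ k * (3 ^ n - 1) := by
    rw [Nat.mul_sub, mul_one, ← pow_add]
  rw [h1, Nat.add_sub_cancel_left, ← P2.two_pow_dvd_three_pow_sub_one L n hL]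
  have hcop : Nat.Coprime (2 ^ L) (3 ^ k) := by
    apply Nat.Coprime.pow; norm_num
  exact hcop.dvd_mul_left

theorem P2.card_class_le (q a c : ℕ) (haq : a ≤ q) (s : Finset ℕ) (hs : ∀ k ∈ s, k < 2 ^ q)
    (hc : ∀ k ∈ s, k ≡ c [MOD 2 ^ a]) : s.card ≤ 2 ^ (q - a) := by
  rw [← Finset.card_range (2 ^ (q - a))]
  apply Finset.card_le_card_of_injOn (fun k => k / 2 ^ a)
  · intro k hk
    have hk' := hs k (by simpa using hk)
    simp only [coe_range, Set.mem_Iio]
    rw [Nat.div_lt_iff_lt_mul (by positivity), ← pow_add, Nat.sub_add_cancel haq]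
    exact hk'
  · intro k hk k' hk' h
    have h1 := hc k (by simpa using hk)
    have h2 := hc k' (by simpa using hk')
    have h3 : k % 2 ^ a = k' % 2 ^ a := h1.trans h2.symm
    simp only at h
    rw [← Nat.div_add_mod k (2 ^ a), ← Nat.div_add_mod k' (2 ^ a), h, h3]

theorem P2.modEq_of_mul_odd (L k k' : ℕ) (d : ℤ) (hd : Odd d)
    (h : (2 ^ L : ℤ) ∣ 3 ^ k * d - 3 ^ k' * d) : 3 ^ k ≡ 3 ^ k' [MOD 2 ^ L] := by
  rw [← sub_mul] at h
  have hcop : IsCoprime (2 ^ L : ℤ) d := by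
    apply IsCoprime.pow_left
    rw [Int.isCoprime_iff_gcd_eq_one]
    have := Int.isCoprime_iff_gcd_eq_one.1 ((Int.isCoprime_iff_gcd_eq_one).2 (by
      have h2 : ¬ (2 : ℤ) ∣ d := by
        intro h2; rw [← even_iff_two_dvd] at h2; exact (Int.not_even_iff_odd.2 hd) h2
      have := (Int.prime_two.coprime_iff_not_dvd (n := d)).2 h2
      exact Int.isCoprime_iff_gcd_eq_one.1 this))
    exact this
  have h2 := hcop.dvd_of_dvd_mul_right h
  apply Nat.ModEq.symm
  rw [← Int.natCast_modEq_iff, Int.modEq_iff_dvd]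
  push_cast
  exact h2

/-- **(b)** the number of `k < 2 ^ q` with `3 ^ k d` in a given set of classes modulo `2 ^ L`. -/
theorem card_three_pow_le (L q : ℕ) (hL : 3 ≤ L) (hq : L ≤ q + 2) (d : ℤ) (hd : Odd d)
    (F : Finset (ZMod (2 ^ L))) :
    ((range (2 ^ q)).filter fun k => ((3 ^ k * d : ℤ) : ZMod (2 ^ L)) ∈ F).card ≤
      F.card * 2 ^ (q + 2 - L) := by
  rw [mul_comm]
  apply Finset.card_le_mul_card_image_of_maps_to (f := fun k : ℕ => ((3 ^ k * d : ℤ) : ZMod (2 ^ L)))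
  · intro k hk
    exact (Finset.mem_filter.1 hk).2
  · intro b hb
    rcases Finset.eq_empty_or_nonempty
      (Finset.filter (fun k : ℕ => ((3 ^ k * d : ℤ) : ZMod (2 ^ L)) = b)
        ((range (2 ^ q)).filter fun k => ((3 ^ k * d : ℤ) : ZMod (2 ^ L)) ∈ F)) with h0 | ⟨c, hc⟩
    · rw [h0]; simp
    · have hcc := (Finset.mem_filter.1 hc).2
      have hE : q + 2 - L = q - (L - 2) := by omega
      rw [hE]
      apply P2.card_class_le q (L - 2) c (by omega)
      · intro k hk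
        exact Finset.mem_range.1 (Finset.mem_filter.1 (Finset.mem_filter.1 hk).1).1
      · intro k hk
        have hkk := (Finset.mem_filter.1 hk).2
        have h1 : ((3 ^ c * d : ℤ) : ZMod (2 ^ L)) = ((3 ^ k * d : ℤ) : ZMod (2 ^ L)) := by
          rw [hcc, hkk]
        rw [ZMod.intCast_eq_intCast_iff_dvd_sub] at h1
        rw [← three_pow_modEq L k c hL]
        apply P2.modEq_of_mul_odd L k c d hd
        push_cast at h1
        exact h1


theorem P2.e_add (a b : ℝ) : e (a + b) = e a * e b := by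
  unfold e
  rw [← Complex.exp_add]
  congr 1
  push_cast
  ring

theorem P2.norm_e (a : ℝ) : ‖e a‖ = 1 := by
  unfold e
  have : (2 * Real.pi * a * Complex.I : ℂ) = ((2 * Real.pi * a : ℝ) : ℂ) * Complex.I := by push_cast; ring
  rw [this, Complex.norm_exp_ofReal_mul_I]

theorem P2.e_int (a : ℤ) : e a = 1 := by
  unfold e
  rw [Complex.exp_eq_one_iff]
  exact ⟨a, by push_cast; ring⟩

theorem P2.conj_e (a : ℝ) : (starRingEnd ℂ) (e a) = e (-a) := by
  unfold e
  rw [← Complex.exp_conj]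
  congr 1
  rw [map_mul, map_mul, map_mul, Complex.conj_I, Complex.conj_ofReal, Complex.conj_ofReal, map_ofNat]
  push_cast
  ring

/-- orthogonality -/
theorem P2.sum_e (N : ℕ) (hN : 0 < N) (a : ℤ) :
    ∑ j ∈ range N, e (a * (j / N)) = if (N : ℤ) ∣ a then (N : ℂ) else 0 := by
  have hN' : (N : ℝ) ≠ 0 := by positivity
  have hpow : ∀ j : ℕ, e (a * (j / N)) = e (a / N) ^ j := by
    intro j
    unfold e
    rw [← Complex.exp_nat_mul]
    congr 1
    push_cast
    field_simp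
  simp only [hpow]
  by_cases h : (N : ℤ) ∣ a
  · rw [if_pos h]
    obtain ⟨b, rfl⟩ := h
    have : e (((N : ℤ) * b : ℤ) / N) = 1 := by
      have h2 : (((N : ℤ) * b : ℤ) : ℝ) / N = (b : ℤ) := by
        push_cast; field_simp
      rw [h2, P2.e_int]
    rw [this]
    simp
  · rw [if_neg h]
    have h1 : e (a / N) ≠ 1 := by
      intro h1
      unfold e at h1
      rw [Complex.exp_eq_one_iff] at h1
      obtain ⟨b, hb⟩ := h1
      apply h
      refine ⟨b, ?_⟩
      have hpi : (Real.pi : ℂ) ≠ 0 := by exact_mod_cast Real.pi_ne_zero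
      have hI := Complex.I_ne_zero
      have hNC : (N : ℂ) ≠ 0 := by exact_mod_cast hN.ne'
      push_cast at hb
      have h3 : (a : ℂ) / N = b := by
        have h4 : (2 * Real.pi * Complex.I : ℂ) ≠ 0 := by simp [hpi]
        apply mul_left_cancel₀ h4
        linear_combination hb
      rw [div_eq_iff hNC] at h3
      have h5 : (a : ℂ) = ((N : ℤ) * b : ℤ) := by push_cast; rw [h3]; ring
      exact_mod_cast h5
    have h2 : e (a / N) ^ N = 1 := by
      have h6 := hpow N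
      rw [← h6]
      have h7 : (a : ℝ) * ((N : ℕ) / N) = (a : ℤ) := by
        field_simp
      rw [h7, P2.e_int]
    have h3 := geom_sum_eq h1 N
    rw [h3, h2]
    simp

/-- Bessel inequality for exponential sums -/
theorem P2.bessel_aux {T : Type*} [DecidableEq T] (s : Finset T) (φ : T → ℤ) (N : ℕ) (hN : 0 < N)
    (x : ℝ) :
    ∑ j ∈ range N, ‖∑ t ∈ s, e (φ t * (x + j / N))‖ ^ 2 ≤
      N * (((s ×ˢ s).filter fun p => (N : ℤ) ∣ φ p.1 - φ p.2).card : ℝ) := by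
  have h1 : ((∑ j ∈ range N, ‖∑ t ∈ s, e (φ t * (x + j / N))‖ ^ 2 : ℝ) : ℂ) =
      ∑ p ∈ s ×ˢ s, e ((φ p.1 - φ p.2) * x) *
        ∑ j ∈ range N, e (((φ p.1 - φ p.2 : ℤ) : ℝ) * (j / N)) := by
    push_cast
    simp only [Finset.mul_sum]
    rw [Finset.sum_comm]
    apply Finset.sum_congr rfl
    intro j _
    rw [← Complex.mul_conj', map_sum, Finset.sum_mul_sum, ← Finset.sum_product']
    apply Finset.sum_congr rfl
    intro p _
    rw [P2.conj_e, ← P2.e_add, ← P2.e_add]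
    congr 1
    ring
  have h2 : ‖((∑ j ∈ range N, ‖∑ t ∈ s, e (φ t * (x + j / N))‖ ^ 2 : ℝ) : ℂ)‖ ≤
      N * (((s ×ˢ s).filter fun p => (N : ℤ) ∣ φ p.1 - φ p.2).card : ℝ) := by
    rw [h1]
    refine (norm_sum_le _ _).trans ?_
    have h3 : ∀ p ∈ s ×ˢ s, ‖e ((φ p.1 - φ p.2) * x) *
        ∑ j ∈ range N, e (((φ p.1 - φ p.2 : ℤ) : ℝ) * (j / N))‖ =
          if (N : ℤ) ∣ φ p.1 - φ p.2 then (N : ℝ) else 0 := by
      intro p _
      rw [norm_mul, P2.norm_e, one_mul, P2.sum_e N hN]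
      split_ifs <;> simp
    rw [Finset.sum_congr rfl h3, ← Finset.sum_filter, Finset.sum_const, nsmul_eq_mul, mul_comm]
  rw [Complex.norm_real, Real.norm_of_nonneg (by positivity)] at h2
  exact h2

theorem P2.fibre (v m1 n M : ℕ) (hm : Odd m1) (h : v + M + 3 ≤ n) (i k i' k' : ℕ) (hi : i < M)
    (hi' : i' < M)
    (hd : ((2 ^ n : ℕ) : ℤ) ∣ ((2 ^ v * m1 : ℕ) : ℤ) * 2 ^ i * 3 ^ k - ((2 ^ v * m1 : ℕ) : ℤ) * 2 ^ i' * 3 ^ k') :
    i' = i ∧ k' ≡ k [MOD 2 ^ (n - v - i - 2)] := by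
  have key : ∀ a b c d : ℕ, a < M → b < M → a < b →
      ¬ ((2 ^ n : ℕ) : ℤ) ∣ ((2 ^ v * m1 : ℕ) : ℤ) * 2 ^ a * 3 ^ c - ((2 ^ v * m1 : ℕ) : ℤ) * 2 ^ b * 3 ^ d := by
    intro a b c d ha hb hab hdv
    obtain ⟨r, rfl⟩ := Nat.exists_eq_add_of_lt hab
    have h1 : ((2 ^ v * m1 : ℕ) : ℤ) * 2 ^ a * 3 ^ c - ((2 ^ v * m1 : ℕ) : ℤ) * 2 ^ (a + r + 1) * 3 ^ d =
        2 ^ (v + a) * (m1 * (3 ^ c - 2 * (2 ^ r * 3 ^ d))) := by
      push_cast; ring
    have h2 : ((2 ^ n : ℕ) : ℤ) = 2 ^ (v + a) * (2 * 2 ^ (n - (v + a) - 1)) := by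
      push_cast
      rw [← mul_assoc, ← pow_succ, ← pow_add]
      congr 1
      omega
    rw [h1, h2] at hdv
    have h3 := Int.dvd_of_mul_dvd_mul_left (by positivity) hdv
    have h4 : (2 : ℤ) ∣ m1 * (3 ^ c - 2 * (2 ^ r * 3 ^ d)) := (Dvd.intro _ rfl).trans h3
    have h5 : Odd ((m1 : ℤ) * (3 ^ c - 2 * (2 ^ r * 3 ^ d))) := by
      apply Odd.mul
      · exact_mod_cast hm
      · apply Odd.sub_even
        · exact Odd.pow (by decide)
        · exact even_two_mul _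
    rw [← even_iff_two_dvd] at h4
    exact (Int.not_even_iff_odd.2 h5) h4
  rcases lt_trichotomy i i' with hlt | heq | hgt
  · exact absurd hd (key i i' k k' hi hi' hlt)
  · subst heq
    refine ⟨rfl, ?_⟩
    have h1 : ((2 ^ v * m1 : ℕ) : ℤ) * 2 ^ i * 3 ^ k - ((2 ^ v * m1 : ℕ) : ℤ) * 2 ^ i * 3 ^ k' =
        2 ^ (v + i) * (3 ^ k * m1 - 3 ^ k' * m1) := by
      push_cast; ring
    have h2 : ((2 ^ n : ℕ) : ℤ) = 2 ^ (v + i) * 2 ^ (n - v - i) := by
      push_cast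
      rw [← pow_add]
      congr 1
      omega
    rw [h1, h2] at hd
    have h3 := Int.dvd_of_mul_dvd_mul_left (by positivity) hd
    have h4 := P2.modEq_of_mul_odd (n - v - i) k k' m1 (by exact_mod_cast hm) h3
    exact ((three_pow_modEq (n - v - i) k k' (by omega)).1 h4).symm
  · exfalso
    apply key i' i k' k hi' hi hgt
    rw [← dvd_neg, neg_sub]
    exact hd

/-- **(c)** -/
theorem bessel (m n M : ℕ) (hm : 1 ≤ m) (hM : 1 ≤ M) (h : m * 2 ^ (M + 3) ≤ 2 ^ n) (x : ℝ) :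
    ∑ j ∈ range (2 ^ n), ‖avg M (2 ^ n) (fun y => e (m * y)) (x + j / 2 ^ n)‖ ^ 2 ≤
      4 * m * 2 ^ M := by
  obtain ⟨v, m1, hm1, rfl⟩ := Nat.exists_eq_two_pow_mul_odd (n := m) (by omega)
  have hm1pos : 1 ≤ m1 := hm1.pos
  have hn : v + M + 3 ≤ n := by
    have h1 : 2 ^ (v + M + 3) ≤ 2 ^ n := by
      calc 2 ^ (v + M + 3) = 2 ^ v * 1 * 2 ^ (M + 3) := by rw [mul_one, ← pow_add]; congr 1
        _ ≤ 2 ^ v * m1 * 2 ^ (M + 3) := by gcongr
        _ ≤ 2 ^ n := h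
    exact (Nat.pow_le_pow_iff_right (by norm_num)).1 h1
  set φ : ℕ × ℕ → ℤ := fun t => ((2 ^ v * m1 : ℕ) : ℤ) * 2 ^ t.1 * 3 ^ t.2 with hφ
  set s : Finset (ℕ × ℕ) := range M ×ˢ range (2 ^ n) with hs
  have hb := P2.bessel_aux s φ (2 ^ n) (by positivity) x
  have hcard : ((s ×ˢ s).filter fun p => ((2 ^ n : ℕ) : ℤ) ∣ φ p.1 - φ p.2).card ≤
      2 ^ n * 2 ^ (v + 2 + M) := by
    rw [Finset.card_filter, Finset.sum_product]
    have h1 : ∀ t ∈ s, ∑ u ∈ s, (if ((2 ^ n : ℕ) : ℤ) ∣ φ t - φ u then 1 else 0) ≤ 2 ^ (v + t.1 + 2) := by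
      intro t ht
      rw [← Finset.card_filter]
      have htM : t.1 < M := by
        have := (Finset.mem_product.1 ht).1; exact Finset.mem_range.1 this
      have hE : 2 ^ (v + t.1 + 2) = 2 ^ (n - (n - v - t.1 - 2)) := by congr 1; omega
      rw [hE]
      have h2 : (s.filter fun u => ((2 ^ n : ℕ) : ℤ) ∣ φ t - φ u).card ≤
          ((s.filter fun u => ((2 ^ n : ℕ) : ℤ) ∣ φ t - φ u).image Prod.snd).card := by
        rw [Finset.card_image_of_injOn]
        intro a ha b hb' hab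
        have ha' := Finset.mem_filter.1 (Finset.mem_coe.1 ha)
        have hb'' := Finset.mem_filter.1 (Finset.mem_coe.1 hb')
        have ha1 := Finset.mem_range.1 (Finset.mem_product.1 ha'.1).1
        have hb1 := Finset.mem_range.1 (Finset.mem_product.1 hb''.1).1
        have e1 := (P2.fibre v m1 n M hm1 hn t.1 t.2 a.1 a.2 htM ha1 ha'.2).1
        have e2 := (P2.fibre v m1 n M hm1 hn t.1 t.2 b.1 b.2 htM hb1 hb''.2).1
        exact Prod.ext (e1.trans e2.symm) hab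
      refine h2.trans ?_
      apply P2.card_class_le n (n - v - t.1 - 2) t.2 (by omega)
      · intro k hk
        obtain ⟨u, hu, rfl⟩ := Finset.mem_image.1 hk
        exact Finset.mem_range.1 (Finset.mem_product.1 (Finset.mem_filter.1 hu).1).2
      · intro k hk
        obtain ⟨u, hu, rfl⟩ := Finset.mem_image.1 hk
        have hu' := Finset.mem_filter.1 hu
        have hu1 := Finset.mem_range.1 (Finset.mem_product.1 hu'.1).1
        exact (P2.fibre v m1 n M hm1 hn t.1 t.2 u.1 u.2 htM hu1 hu'.2).2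
    refine (Finset.sum_le_sum h1).trans ?_
    rw [hs, Finset.sum_product]
    simp only [Finset.sum_const, Finset.card_range, smul_eq_mul]
    rw [← Finset.mul_sum]
    gcongr
    have h3 : ∑ i ∈ range M, 2 ^ (v + i + 2) = 2 ^ (v + 2) * ∑ i ∈ range M, 2 ^ i := by
      rw [Finset.mul_sum]
      apply Finset.sum_congr rfl
      intro i _
      rw [← pow_add]
      congr 1
      omega
    rw [h3, pow_add 2 (v + 2) M]
    gcongr
    have h4 := Nat.geomSum_lt (m := 2) (n := M) (s := range M) (by norm_num) (fun k hk => Finset.mem_range.1 hk)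
    exact h4.le
  have hMR : (1 : ℝ) ≤ M := by exact_mod_cast hM
  have h5 : ∀ j ∈ range (2 ^ n), ‖avg M (2 ^ n) (fun y => e ((2 ^ v * m1 : ℕ) * y)) (x + j / 2 ^ n)‖ ^ 2 =
      ‖∑ t ∈ s, e (φ t * (x + j / (2 ^ n : ℕ)))‖ ^ 2 / (M * 2 ^ n) ^ 2 := by
    intro j _
    unfold avg
    rw [norm_div, div_pow]
    congr 2
    · congr 1
      rw [hs, Finset.sum_product]
      apply Finset.sum_congr rfl
      intro i _
      apply Finset.sum_congr rfl
      intro k _
      simp only [hφ]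
      push_cast
      ring_nf
    · rw [norm_mul]
      simp
  rw [Finset.sum_congr rfl h5, ← Finset.sum_div, div_le_iff₀ (by positivity)]
  refine hb.trans ?_
  have hcard' : (((s ×ˢ s).filter fun p => ((2 ^ n : ℕ) : ℤ) ∣ φ p.1 - φ p.2).card : ℝ) ≤
      2 ^ n * 2 ^ (v + 2 + M) := by exact_mod_cast hcard
  calc ((2 ^ n : ℕ) : ℝ) * (((s ×ˢ s).filter fun p => ((2 ^ n : ℕ) : ℤ) ∣ φ p.1 - φ p.2).card : ℝ)
      ≤ ((2 ^ n : ℕ) : ℝ) * (2 ^ n * 2 ^ (v + 2 + M)) := by gcongr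
    _ = 4 * (2 ^ v * 1) * 2 ^ M * (1 * 2 ^ n) ^ 2 := by push_cast; ring
    _ ≤ 4 * ((2 ^ v * m1 : ℕ) : ℝ) * 2 ^ M * (M * 2 ^ n) ^ 2 := by
        have : (1 : ℝ) ≤ m1 := by exact_mod_cast hm1pos
        push_cast
        gcongr

end Pool.Agent.Helper61.FR
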