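import Mathlib
import Pool.Agent.Helper61.FR.St.P2

/-!
# FR-P7: two different points with the same image under `x ↦ 2 ^ n x` are not both typical

Proof.  Put `x' = x + d / 2 ^ n' + τ`.  At least `3 / 4` of the pairs `(i, k)`, `i < M`,
`k < 2 ^ q`, have both `2 ^ i 3 ^ k x` and `2 ^ i 3 ^ k x'` in `nbhd r U`, so there is `i < M` such
that this holds for at least `(3 / 4) 2 ^ q` values of `k < 2 ^ q`.  Put `L = n' - i`, so
`r ≤ L ≤ q + 2`.  For such a `k`, `2 ^ i 3 ^ k (x' - x) = 3 ^ k d / 2 ^ L + 2 ^ i 3 ^ k τ` with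
`|2 ^ i 3 ^ k τ| ≤ 2 ^ (- L)`, and it is also `(u' - u) / 2 ^ r + z + θ` with `u, u' ∈ U`, `z` an
integer and `|θ| ≤ (3 / 2) / 2 ^ r`.  Multiply by `2 ^ L`: `3 ^ k d` is congruent modulo `2 ^ L` to
`(u' - u) 2 ^ (L - r) + t` with an integer `t`, `|t| ≤ (5 / 2) 2 ^ (L - r)`.  So the class of
`3 ^ k d` lies in a set of at most `|U| ^ 2 * 6 * 2 ^ (L - r)` classes, and by
`card_three_pow_le` there are at most `24 |U| ^ 2 2 ^ (q - r) < 2 ^ q / 2` such `k`: contradiction.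
-/

set_option autoImplicit false

open MeasureTheory Finset

namespace Pool.Agent.Helper61.FR

theorem not_both_typical (r : ℕ) (U : Finset ℕ) (hU : 48 * U.card ^ 2 < 2 ^ r) (hr : 3 ≤ r)
    (q M n' : ℕ) (hM : 1 ≤ M) (h1 : M + r ≤ n') (h2 : n' ≤ q + 2) (d : ℤ) (hd : Odd d)
    (τ x : ℝ) (hτ : |τ| * 3 ^ (2 ^ q) * 2 ^ n' ≤ 1)
    (hx : 7 * (M * 2 ^ q) ≤ 8 * cnt M (2 ^ q) (nbhd r U) x)
    (hx' : 7 * (M * 2 ^ q) ≤ 8 * cnt M (2 ^ q) (nbhd r U) (x + d / 2 ^ n' + τ)) : False := by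
  classical
  -- the good exponents for a given `i`
  set x' : ℝ := x + d / 2 ^ n' + τ with hx'def
  set G : ℕ → Finset ℕ := fun i => (range (2 ^ q)).filter fun k =>
    (2 : ℝ) ^ i * 3 ^ k * x ∈ nbhd r U ∧ (2 : ℝ) ^ i * 3 ^ k * x' ∈ nbhd r U with hG
  -- the count of good pairs
  have hcount : cnt M (2 ^ q) (nbhd r U) x + cnt M (2 ^ q) (nbhd r U) x' ≤
      M * 2 ^ q + ∑ i ∈ range M, (G i).card := by
    set A := (range M ×ˢ range (2 ^ q)).filter fun t : ℕ × ℕ =>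
      (2 : ℝ) ^ t.1 * 3 ^ t.2 * x ∈ nbhd r U with hA
    set A' := (range M ×ˢ range (2 ^ q)).filter fun t : ℕ × ℕ =>
      (2 : ℝ) ^ t.1 * 3 ^ t.2 * x' ∈ nbhd r U with hA'
    have e1 : cnt M (2 ^ q) (nbhd r U) x = A.card := by
      unfold cnt; rw [hA]
    have e2 : cnt M (2 ^ q) (nbhd r U) x' = A'.card := by
      unfold cnt; rw [hA']
    have h3 : (A ∪ A').card + (A ∩ A').card = A.card + A'.card := Finset.card_union_add_card_inter A A'
    have h4 : (A ∪ A').card ≤ M * 2 ^ q := by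
      have : A ∪ A' ⊆ range M ×ˢ range (2 ^ q) :=
        Finset.union_subset (Finset.filter_subset _ _) (Finset.filter_subset _ _)
      have h5 := Finset.card_le_card this
      rwa [Finset.card_product, Finset.card_range, Finset.card_range] at h5
    have h6 : (A ∩ A').card = ∑ i ∈ range M, (G i).card := by
      have h7 : A ∩ A' = Finset.map (⟨fun p : (Σ _ : ℕ, ℕ) => (p.1, p.2), by
            rintro ⟨a, b⟩ ⟨c, d⟩ h
            simp only [Prod.mk.injEq] at h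
            obtain ⟨h1, h2⟩ := h
            subst h1; subst h2; rfl⟩ : (Σ _ : ℕ, ℕ) ↪ ℕ × ℕ) ((range M).sigma G) := by
        ext ⟨i, k⟩
        simp only [hA, hA', Finset.mem_inter, Finset.mem_filter, Finset.mem_product,
          Finset.mem_range, Finset.mem_map, Finset.mem_sigma, hG, Function.Embedding.coeFn_mk,
          Sigma.exists, Prod.mk.injEq]
        constructor
        · rintro ⟨⟨⟨h1, h2⟩, h3⟩, ⟨_, h4⟩⟩
          exact ⟨i, k, ⟨h1, h2, h3, h4⟩, rfl, rfl⟩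
        · rintro ⟨a, b, ⟨h1, h2, h3, h4⟩, rfl, rfl⟩
          exact ⟨⟨⟨h1, h2⟩, h3⟩, ⟨⟨h1, h2⟩, h4⟩⟩
      rw [h7, Finset.card_map, Finset.card_sigma]
    omega
  -- a good `i`
  have hi : ∃ i ∈ range M, 3 * 2 ^ q ≤ 4 * (G i).card := by
    by_contra hcon
    push Not at hcon
    have h3 : ∑ i ∈ range M, 4 * (G i).card < ∑ _i ∈ range M, 3 * 2 ^ q :=
      Finset.sum_lt_sum_of_nonempty (Finset.nonempty_range_iff.mpr (by omega)) hcon
    rw [← Finset.mul_sum, Finset.sum_const, Finset.card_range, smul_eq_mul] at h3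
    have h4 : M * (3 * 2 ^ q) = 3 * (M * 2 ^ q) := by ring
    omega
  obtain ⟨i, hiM, hGi⟩ := hi
  rw [Finset.mem_range] at hiM
  -- the level
  obtain ⟨W, hW⟩ : ∃ W : ℕ, n' = i + (r + 1 + W) := ⟨n' - i - (r + 1), by omega⟩
  set L : ℕ := r + 1 + W with hL
  have hLq : L ≤ q + 2 := by omega
  -- the set of classes
  set B : ℤ := 3 * 2 ^ W + 1 with hB
  set F : Finset (ZMod (2 ^ L)) := ((U ×ˢ U) ×ˢ Finset.Icc (-B) B).image fun p =>
    ((((p.1.2 : ℤ) - (p.1.1 : ℤ)) * 2 ^ (W + 1) + p.2 : ℤ) : ZMod (2 ^ L)) with hF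
  have hFcard : F.card ≤ U.card ^ 2 * (12 * 2 ^ W) := by
    refine Finset.card_image_le.trans ?_
    rw [Finset.card_product, Finset.card_product, Int.card_Icc, ← pow_two]
    apply Nat.mul_le_mul_left
    have h5 : (1 : ℤ) ≤ 2 ^ W := one_le_pow₀ (by norm_num)
    have h6 : ((12 * 2 ^ W : ℕ) : ℤ) = 12 * 2 ^ W := by push_cast; ring
    rw [Int.toNat_le, h6, hB]
    linarith
  -- the good exponents have their class in `F`
  have hsub : G i ⊆ (range (2 ^ q)).filter fun k => ((3 ^ k * d : ℤ) : ZMod (2 ^ L)) ∈ F := by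
    intro k hk
    simp only [hG, Finset.mem_filter, Finset.mem_range] at hk
    obtain ⟨hkq, ⟨u, hu, z, hz⟩, ⟨u', hu', z', hz'⟩⟩ := hk
    rw [Finset.mem_filter, Finset.mem_range]
    refine ⟨hkq, ?_⟩
    set t : ℤ := 3 ^ k * d - (z' - z) * 2 ^ L - ((u' : ℤ) - (u : ℤ)) * 2 ^ (W + 1) with ht
    have h2L : (0 : ℝ) < 2 ^ L := by positivity
    have h2r : (0 : ℝ) < 2 ^ r := by positivity
    have hLr : (2 : ℝ) ^ L = 2 ^ r * 2 ^ (W + 1) := by
      rw [hL, ← pow_add]; congr 1; ring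
    have hn' : (2 : ℝ) ^ n' = 2 ^ i * 2 ^ L := by rw [hW, ← pow_add]
    have h2i : (0 : ℝ) < 2 ^ i := by positivity
    -- the error term with `τ`
    have hτ' : |(2 : ℝ) ^ L * (2 ^ i * 3 ^ k * τ)| ≤ 1 := by
      have h7 : |(2 : ℝ) ^ L * (2 ^ i * 3 ^ k * τ)| = |τ| * 3 ^ k * 2 ^ n' := by
        rw [hn', abs_mul, abs_mul, abs_mul, abs_of_pos h2L, abs_of_pos h2i,
          abs_of_pos (by positivity : (0 : ℝ) < 3 ^ k)]
        ring
      rw [h7]
      refine le_trans ?_ hτ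
      have h8 : (3 : ℝ) ^ k ≤ 3 ^ (2 ^ q) := pow_le_pow_right₀ (by norm_num) hkq.le
      have h9 : (0 : ℝ) ≤ |τ| := abs_nonneg τ
      gcongr
    -- the identity
    have hid : (t : ℝ) = 2 ^ L * ((2 ^ i * 3 ^ k * x' - z' - (u' + 1 / 2) / 2 ^ r) -
        (2 ^ i * 3 ^ k * x - z - (u + 1 / 2) / 2 ^ r)) - 2 ^ L * (2 ^ i * 3 ^ k * τ) := by
      have h10 : (2 : ℝ) ^ L * (2 ^ i * 3 ^ k * x') =
          2 ^ L * (2 ^ i * 3 ^ k * x) + 3 ^ k * d + 2 ^ L * (2 ^ i * 3 ^ k * τ) := by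
        rw [hx'def]
        have : (2 : ℝ) ^ L * (2 ^ i * 3 ^ k * (d / 2 ^ n')) = 3 ^ k * d := by
          rw [hn']; field_simp
        linear_combination this
      have h11 : (2 : ℝ) ^ L * ((u' + 1 / 2) / 2 ^ r) = (u' + 1 / 2) * 2 ^ (W + 1) := by
        rw [hLr]; field_simp
      have h12 : (2 : ℝ) ^ L * ((u + 1 / 2) / 2 ^ r) = (u + 1 / 2) * 2 ^ (W + 1) := by
        rw [hLr]; field_simp
      rw [ht]
      push_cast
      linear_combination h11 - h12 - h10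
    have hbound : |(t : ℝ)| ≤ 3 * 2 ^ W + 1 := by
      have h13 : (2 : ℝ) ^ L * (3 / 4 / 2 ^ r) = 3 / 2 * 2 ^ W := by
        rw [hLr, pow_succ]; field_simp; norm_num
      have h14 : |(2 : ℝ) ^ L * (2 ^ i * 3 ^ k * x' - z' - (u' + 1 / 2) / 2 ^ r)| ≤ 3 / 2 * 2 ^ W := by
        rw [abs_mul, abs_of_pos h2L, ← h13]
        exact mul_le_mul_of_nonneg_left hz' h2L.le
      have h15 : |(2 : ℝ) ^ L * (2 ^ i * 3 ^ k * x - z - (u + 1 / 2) / 2 ^ r)| ≤ 3 / 2 * 2 ^ W := by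
        rw [abs_mul, abs_of_pos h2L, ← h13]
        exact mul_le_mul_of_nonneg_left hz h2L.le
      rw [hid, abs_le]
      rw [abs_le] at h14 h15 hτ'
      constructor <;> nlinarith [h14.1, h14.2, h15.1, h15.2, hτ'.1, hτ'.2]
    have htB : |t| ≤ B := by
      have h16 : ((|t| : ℤ) : ℝ) ≤ ((B : ℤ) : ℝ) := by
        rw [hB]; push_cast; exact hbound
      exact_mod_cast h16
    rw [hF, Finset.mem_image]
    refine ⟨((u, u'), t), ?_, ?_⟩
    · rw [Finset.mem_product, Finset.mem_product, Finset.mem_Icc]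
      exact ⟨⟨hu, hu'⟩, abs_le.mp htB⟩
    · have h17 : (3 ^ k * d : ℤ) = (((u' : ℤ) - (u : ℤ)) * 2 ^ (W + 1) + t) + (z' - z) * 2 ^ L := by
        rw [ht]; ring
      rw [h17]
      push_cast
      have h18 : ((2 : ZMod (2 ^ L)) ^ L) = 0 := by
        have := ZMod.natCast_self (2 ^ L)
        push_cast at this
        exact this
      rw [h18]
      ring
  have h20 := Finset.card_le_card hsub
  have h21 := card_three_pow_le L q (by omega) hLq d hd F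
  -- the final count
  have h22 : (G i).card ≤ U.card ^ 2 * (12 * 2 ^ W) * 2 ^ (q + 2 - L) :=
    h20.trans (h21.trans (Nat.mul_le_mul_right _ hFcard))
  have h23 : (G i).card * 2 ^ r ≤ 24 * U.card ^ 2 * 2 ^ q := by
    have h24 : 2 ^ W * 2 ^ (q + 2 - L) * 2 ^ r * 2 = 2 ^ (q + 2) := by
      rw [← pow_add, ← pow_add, ← pow_succ]
      congr 1
      omega
    calc (G i).card * 2 ^ r ≤ U.card ^ 2 * (12 * 2 ^ W) * 2 ^ (q + 2 - L) * 2 ^ r :=
          Nat.mul_le_mul_right _ h22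
      _ = 6 * U.card ^ 2 * (2 ^ W * 2 ^ (q + 2 - L) * 2 ^ r * 2) := by ring
      _ = 24 * U.card ^ 2 * 2 ^ q := by rw [h24, pow_add]; ring
  have h25 : 0 < 2 ^ q := by positivity
  have h26 : 3 * 2 ^ q * 2 ^ r ≤ 4 * (G i).card * 2 ^ r := Nat.mul_le_mul_right _ hGi
  have h27 : 4 * (G i).card * 2 ^ r = 4 * ((G i).card * 2 ^ r) := by ring
  have h28 : 48 * U.card ^ 2 * 2 ^ q < 2 ^ r * 2 ^ q := Nat.mul_lt_mul_of_pos_right hU h25
  have h29 : 3 * 2 ^ q * 2 ^ r = 3 * (2 ^ r * 2 ^ q) := by ring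
  have h30 : 4 * (24 * U.card ^ 2 * 2 ^ q) = 2 * (48 * U.card ^ 2 * 2 ^ q) := by ring
  omega

end Pool.Agent.Helper61.FR
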