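import Mathlib
import Pool.Agent.Helper61.FR.Defs

/-!
# FR-P1: the distributions on the intervals of length `1 / D`

Proof.  `μ` is supported in `[0, 1)`, so `⌊D x⌋₊ < D` almost everywhere, and the sets
`{x | ⌊D x⌋₊ = a}`, `a < D`, cover `[0, 1)`: `sum_eq_one`.  `refine_eq`: `⌊D s x⌋₊ / s = ⌊D x⌋₊`
(`Nat.floor_div_natCast`), so `{⌊D x⌋₊ = a}` is the disjoint union of the sets
`{⌊D s x⌋₊ = a s + j}`, `j < s`.  `inv_eq`: `x ↦ fract (2 ^ n x)` preserves `μ` (iterate
`h.two`: `fract (2 fract (2 ^ n x)) = fract (2 ^ (n + 1) x)`), and for `x ≥ 0`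
`⌊D fract (B x)⌋₊ = ⌊D B x⌋₊ % D`, `B = 2 ^ n`.
-/

set_option autoImplicit false

open MeasureTheory Finset

namespace Pool.Agent.Helper61.FR

theorem fract_natCast_mul_fract (a : ℕ) (b : ℝ) :
    Int.fract ((a : ℝ) * Int.fract b) = Int.fract ((a : ℝ) * b) := by
  rw [Int.fract_eq_fract]
  refine ⟨-(a * ⌊b⌋), ?_⟩
  have := Int.self_sub_floor b
  rw [← this]
  push_cast
  ring

theorem preserving_fract_id {μ : Measure ℝ} (h : Inv23 μ) :
    MeasurePreserving (fun x : ℝ => Int.fract x) μ μ := by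
  refine ⟨measurable_fract, ?_⟩
  have h1 : (fun x : ℝ => Int.fract x) =ᵐ[μ] id := by
    filter_upwards [h.supp] with x hx
    exact Int.fract_eq_self.2 ⟨hx.1, hx.2⟩
  rw [Measure.map_congr h1, Measure.map_id]

theorem preserving_mul_pow {μ : Measure ℝ} (h : Inv23 μ) (s : ℕ)
    (hs : MeasurePreserving (fun x : ℝ => Int.fract ((s : ℝ) * x)) μ μ) (n : ℕ) :
    MeasurePreserving (fun x : ℝ => Int.fract ((s : ℝ) ^ n * x)) μ μ := by
  induction n with
  | zero => simpa using preserving_fract_id h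
  | succ n ih =>
    have h1 := hs.comp ih
    have h2 : (fun x : ℝ => Int.fract ((s : ℝ) * x)) ∘ (fun x : ℝ => Int.fract ((s : ℝ) ^ n * x))
        = fun x : ℝ => Int.fract ((s : ℝ) ^ (n + 1) * x) := by
      funext x
      simp only [Function.comp]
      rw [fract_natCast_mul_fract]
      congr 1
      ring
    rwa [h2] at h1

theorem preserving_two_pow {μ : Measure ℝ} (h : Inv23 μ) (n : ℕ) :
    MeasurePreserving (fun x : ℝ => Int.fract (2 ^ n * x)) μ μ := by
  have := preserving_mul_pow h 2 (by simpa using h.two) n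
  simpa using this

theorem preserving_two_three {μ : Measure ℝ} (h : Inv23 μ) (n k : ℕ) :
    MeasurePreserving (fun x : ℝ => Int.fract (2 ^ n * 3 ^ k * x)) μ μ := by
  have h3 := preserving_mul_pow h 3 (by simpa using h.three) k
  have h1 := (preserving_two_pow h n).comp h3
  have h2 : (fun x : ℝ => Int.fract ((2 : ℝ) ^ n * x)) ∘
      (fun x : ℝ => Int.fract (((3 : ℕ) : ℝ) ^ k * x))
        = fun x : ℝ => Int.fract ((2 : ℝ) ^ n * 3 ^ k * x) := by
    funext x
    simp only [Function.comp]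
    have := fract_natCast_mul_fract (2 ^ n) (((3 : ℕ) : ℝ) ^ k * x)
    push_cast at this ⊢
    rw [this]
    congr 1
    ring
  rwa [h2] at h1

theorem measurableSet_floor_eq (D a : ℕ) : MeasurableSet {x : ℝ | ⌊(D : ℝ) * x⌋₊ = a} := by
  have h1 : Measurable (fun x : ℝ => ⌊(D : ℝ) * x⌋₊) :=
    Nat.measurable_floor.comp (measurable_const_mul _)
  exact h1 (measurableSet_singleton a)

theorem floor_mul_fract (D : ℕ) (hD : 1 ≤ D) (y : ℝ) (hy : 0 ≤ y) :
    ⌊(D : ℝ) * Int.fract y⌋₊ = ⌊(D : ℝ) * y⌋₊ % D ∧ ⌊(D : ℝ) * y⌋₊ / D = ⌊y⌋₊ := by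
  have h0 : (⌊y⌋₊ : ℝ) + Int.fract y = y := by
    have h1 := Int.floor_add_fract y
    have h2 : ((⌊y⌋₊ : ℕ) : ℝ) = ((⌊y⌋ : ℤ) : ℝ) := by
      have h3 := Int.natCast_floor_eq_floor hy
      exact_mod_cast h3
    rw [h2]
    exact h1
  have hf0 := Int.fract_nonneg y
  have hf1 := Int.fract_lt_one y
  have hD0 : (0 : ℝ) < D := by exact_mod_cast hD
  have h4 : ⌊(D : ℝ) * y⌋₊ = D * ⌊y⌋₊ + ⌊(D : ℝ) * Int.fract y⌋₊ := by
    have h5 : (D : ℝ) * y = (D : ℝ) * Int.fract y + ((D * ⌊y⌋₊ : ℕ) : ℝ) := by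
      push_cast
      rw [← mul_add, add_comm (Int.fract y), h0]
    rw [h5, Nat.floor_add_natCast (by positivity), add_comm]
  have h6 : ⌊(D : ℝ) * Int.fract y⌋₊ < D := by
    rw [Nat.floor_lt (by positivity)]
    nlinarith
  constructor
  · rw [h4, Nat.mul_add_mod, Nat.mod_eq_of_lt h6]
  · rw [h4, Nat.mul_add_div (by omega), Nat.div_eq_of_lt h6, add_zero]

theorem profile_pr {μ : Measure ℝ} (h : Inv23 μ) : Profile (pr μ) := by
  haveI := h.prob
  have hdisj : ∀ D : ℕ, ∀ a b : ℕ, a ≠ b →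
      Disjoint {x : ℝ | ⌊(D : ℝ) * x⌋₊ = a} {x : ℝ | ⌊(D : ℝ) * x⌋₊ = b} := by
    intro D a b hab
    rw [Set.disjoint_left]
    intro x hx hx'
    exact hab (hx.symm.trans hx')
  refine ⟨?_, ?_, ?_, ?_⟩
  · intro D a
    exact measureReal_nonneg
  · intro D hD
    unfold pr
    rw [← measureReal_biUnion_finset]
    · have h1 : (⋃ a ∈ range D, {x : ℝ | ⌊(D : ℝ) * x⌋₊ = a}) =ᵐ[μ] Set.univ := by
        rw [Filter.eventuallyEq_univ]
        filter_upwards [h.supp] with x hx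
        simp only [Set.mem_iUnion, Set.mem_setOf_eq, Finset.mem_range, exists_prop,
          exists_eq_right']
        have hD0 : (0 : ℝ) < D := by exact_mod_cast hD
        rw [Nat.floor_lt (mul_nonneg hD0.le hx.1)]
        nlinarith [hx.2]
      rw [measureReal_congr h1]
      simp
    · intro a _ b _ hab
      exact hdisj D a b hab
    · intro a _
      exact measurableSet_floor_eq D a
  · intro D s a hD hs ha
    unfold pr
    have h1 : {x : ℝ | ⌊(D : ℝ) * x⌋₊ = a} =
        ⋃ j ∈ range s, {x : ℝ | ⌊((D * s : ℕ) : ℝ) * x⌋₊ = a * s + j} := by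
      ext x
      simp only [Set.mem_iUnion, Set.mem_setOf_eq, Finset.mem_range, exists_prop]
      have h2 : ⌊(D : ℝ) * x⌋₊ = ⌊((D * s : ℕ) : ℝ) * x⌋₊ / s := by
        rw [← Nat.floor_div_natCast]
        congr 1
        have hs0 : (s : ℝ) ≠ 0 := by
          have : (0 : ℝ) < s := by exact_mod_cast hs
          exact this.ne'
        push_cast
        field_simp
      rw [h2]
      constructor
      · intro h3
        refine ⟨⌊((D * s : ℕ) : ℝ) * x⌋₊ % s, Nat.mod_lt _ (by omega), ?_⟩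
        rw [← h3]
        have := Nat.div_add_mod ⌊((D * s : ℕ) : ℝ) * x⌋₊ s
        rw [mul_comm] at this
        exact this.symm
      · rintro ⟨j, hj, h3⟩
        rw [h3, mul_comm a s, Nat.mul_add_div (by omega), Nat.div_eq_of_lt hj, add_zero]
    rw [h1, measureReal_biUnion_finset]
    · intro i _ j _ hij
      exact hdisj (D * s) _ _ (fun h => hij (by omega))
    · intro i _
      exact measurableSet_floor_eq _ _
  · intro D n a hD ha
    have hB : 1 ≤ 2 ^ n := Nat.one_le_two_pow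
    unfold pr
    have h1 := (preserving_two_pow h n).measureReal_preimage
      (measurableSet_floor_eq D a).nullMeasurableSet
    rw [← h1]
    have h2 : ((fun x : ℝ => Int.fract ((2 : ℝ) ^ n * x)) ⁻¹' {x : ℝ | ⌊(D : ℝ) * x⌋₊ = a})
        =ᵐ[μ] ⋃ j ∈ range (2 ^ n), {x : ℝ | ⌊((D * 2 ^ n : ℕ) : ℝ) * x⌋₊ = a + D * j} := by
      filter_upwards [h.supp] with x hx
      have hy : (0 : ℝ) ≤ (2 : ℝ) ^ n * x := mul_nonneg (by positivity) hx.1
      obtain ⟨h3, h4⟩ := floor_mul_fract D hD _ hy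
      have h5 : ((D * 2 ^ n : ℕ) : ℝ) * x = (D : ℝ) * ((2 : ℝ) ^ n * x) := by
        push_cast
        ring
      have h6 : ⌊(2 : ℝ) ^ n * x⌋₊ < 2 ^ n := by
        rw [Nat.floor_lt hy]
        push_cast
        have : (0 : ℝ) < 2 ^ n := by positivity
        nlinarith [hx.2]
      have h7 : (x ∈ ((fun x : ℝ => Int.fract ((2 : ℝ) ^ n * x)) ⁻¹'
          {x : ℝ | ⌊(D : ℝ) * x⌋₊ = a})) ↔
          x ∈ ⋃ j ∈ range (2 ^ n), {x : ℝ | ⌊((D * 2 ^ n : ℕ) : ℝ) * x⌋₊ = a + D * j} := by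
        simp only [Set.mem_preimage, Set.mem_iUnion, Set.mem_setOf_eq, Finset.mem_range,
          exists_prop]
        rw [h3, h5]
        constructor
        · intro h8
          refine ⟨⌊(2 : ℝ) ^ n * x⌋₊, h6, ?_⟩
          rw [← h4, ← h8]
          exact (Nat.mod_add_div _ _).symm
        · rintro ⟨j, hj, h8⟩
          rw [h8, Nat.add_mul_mod_self_left, Nat.mod_eq_of_lt ha]
      exact propext h7
    rw [measureReal_congr h2, measureReal_biUnion_finset]
    · intro i _ j _ hij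
      refine hdisj (D * 2 ^ n) _ _ (fun h => hij ?_)
      have : D * i = D * j := by omega
      exact Nat.eq_of_mul_eq_mul_left (by omega) this
    · intro i _
      exact measurableSet_floor_eq _ _

end Pool.Agent.Helper61.FR
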