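import Mathlib

/-!
# FR-P9: arcs of definite mass give an atom

Proof.  We may take `y K ∈ [0, 1)` (replace `y` by its fractional part) and choose a subsequence
converging to `y ∈ [0, 1]`.  For every `ε > 0` the set `{x | ∃ z : ℤ, |x - y - z| ≤ ε}` contains one
of the given sets, so has measure at least `c`.  These sets decrease to `{x | ∃ z, x = y + z}`,
which is countable, hence of measure zero: contradiction (`tendsto_measure_iInter_atTop` or
similar).
-/

set_option autoImplicit false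

open MeasureTheory Finset

namespace Pool.Agent.Helper61.FR

theorem false_of_arcs {μ : Measure ℝ} [IsProbabilityMeasure μ] (h0 : ∀ x, μ {x} = 0)
    (hc : ∃ c : ℝ, 0 < c ∧ ∀ K : ℕ, ∃ y : ℝ,
      c ≤ μ.real {x | ∃ z : ℤ, |x - y - z| ≤ (1 / 2) ^ K}) : False := by
  obtain ⟨c, hc0, hy⟩ := hc
  choose y hy using hy
  have : NullSingletonClass μ := ⟨h0⟩
  have hmem : ∀ K, Int.fract (y K) ∈ Set.Icc (0 : ℝ) 1 := fun K =>
    ⟨Int.fract_nonneg _, (Int.fract_lt_one _).le⟩
  obtain ⟨a, -, φ, hφ, hlim⟩ := isCompact_Icc.tendsto_subseq hmem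
  have hsub : ∀ m : ℕ, c ≤ μ.real {x | ∃ z : ℤ, |x - a - z| ≤ (1 / 2) ^ m} := by
    intro m
    have hev := (Metric.tendsto_atTop.1 hlim) ((1 / 2) ^ (m + 1)) (by positivity)
    obtain ⟨N, hN⟩ := hev
    have h1 := hN (max N (m + 1)) (le_max_left _ _)
    have h2 : m + 1 ≤ φ (max N (m + 1)) := (le_max_right _ _).trans (hφ.id_le _)
    refine (hy (φ (max N (m + 1)))).trans (measureReal_mono ?_)
    rintro x ⟨z, hz⟩
    refine ⟨z + ⌊y (φ (max N (m + 1)))⌋, ?_⟩
    have h3 : (1 / 2 : ℝ) ^ φ (max N (m + 1)) ≤ (1 / 2) ^ (m + 1) :=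
      pow_le_pow_of_le_one (by norm_num) (by norm_num) h2
    rw [Real.dist_eq] at h1
    have h4 : Int.fract (y (φ (max N (m + 1)))) = y (φ (max N (m + 1))) -
        ⌊y (φ (max N (m + 1)))⌋ := rfl
    simp only [Function.comp_apply] at h1
    have h5 : x - a - ((z + ⌊y (φ (max N (m + 1)))⌋ : ℤ) : ℝ) =
        (x - y (φ (max N (m + 1))) - z) + (Int.fract (y (φ (max N (m + 1)))) - a) := by
      rw [h4]; push_cast; ring
    rw [h5]
    have h6 : (1 / 2 : ℝ) ^ m = (1 / 2) ^ (m + 1) + (1 / 2) ^ (m + 1) := by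
      rw [pow_succ]; ring
    rw [h6]
    exact (abs_add_le _ _).trans (add_le_add (hz.trans h3) h1.le)
  have hmeas : ∀ m : ℕ, NullMeasurableSet {x : ℝ | ∃ z : ℤ, |x - a - z| ≤ (1 / 2) ^ m} μ := by
    intro m
    have : {x : ℝ | ∃ z : ℤ, |x - a - z| ≤ (1 / 2) ^ m} =
        ⋃ z : ℤ, {x : ℝ | |x - a - z| ≤ (1 / 2) ^ m} := by
      ext x; simp
    rw [this]
    refine (MeasurableSet.iUnion fun z => ?_).nullMeasurableSet
    exact (isClosed_le (by fun_prop) (by fun_prop)).measurableSet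
  have hanti : Antitone fun m : ℕ => {x : ℝ | ∃ z : ℤ, |x - a - z| ≤ (1 / 2) ^ m} := by
    intro m m' hmm x
    rintro ⟨z, hz⟩
    exact ⟨z, hz.trans (pow_le_pow_of_le_one (by norm_num) (by norm_num) hmm)⟩
  have htend := tendsto_measure_iInter_atTop hmeas hanti ⟨0, measure_ne_top μ _⟩
  have hzero : μ (⋂ m : ℕ, {x : ℝ | ∃ z : ℤ, |x - a - z| ≤ (1 / 2) ^ m}) = 0 := by
    refine measure_mono_null (t := Set.range fun z : ℤ => a + (z : ℝ)) ?_
      ((Set.countable_range _).measure_zero μ)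
    intro x hx
    rw [Set.mem_iInter] at hx
    refine ⟨round (x - a), ?_⟩
    have h1 : ∀ m : ℕ, |x - a - round (x - a)| ≤ (1 / 2 : ℝ) ^ m := by
      intro m
      obtain ⟨z, hz⟩ := hx m
      exact (round_le (x - a) z).trans hz
    have h2 : |x - a - round (x - a)| ≤ 0 :=
      ge_of_tendsto' (tendsto_pow_atTop_nhds_zero_of_lt_one (by norm_num) (by norm_num)) h1
    have h3 := abs_eq_zero.1 (le_antisymm h2 (abs_nonneg _))
    simp only
    linarith
  rw [hzero] at htend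
  have hge : ENNReal.ofReal c ≤ 0 := by
    refine ge_of_tendsto' htend fun m => ?_
    exact (ENNReal.ofReal_le_iff_le_toReal (measure_ne_top μ _)).2 (hsub m)
  rw [nonpos_iff_eq_zero, ENNReal.ofReal_eq_zero] at hge
  exact absurd hc0 (not_lt.2 hge)

end Pool.Agent.Helper61.FR
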