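import Mathlib
import Pool.Agent.Helper61.FR.St.P1
import Pool.Agent.Helper61.FR.St.P10

/-!
# FR-P12: the variance of the averages in terms of the Fourier coefficients

Proof.  `cf_mul`: invariance.  `variance_eq`: expand the square; the mean of the average is
`cf μ m` by invariance, and `∫ e (a y) * conj (e (b y)) = cf μ (a - b)`.
`variance_le`: the term of the pair `((i, k), (i', k'))` is, after cancelling the common power of
`2` and of `3` (`cf_mul`) and up to complex conjugation (`cf_neg`), one of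
`cf μ (m (2 ^ a 3 ^ b - 1))`, `cf μ (m (2 ^ a - 3 ^ b))` with `a = |i - i'|`, `b = |k - k'|`; so the
variance is at most `(M N)⁻² ∑ C (1 + |i - i'| + |k - k'|) ^ (-1 - δ)
≤ 4 C (M N)⁻¹ ∑_{a < M} ∑_{b < N} (1 + a + b) ^ (-1 - δ)`, and
`(1 + a + b) ^ (-1 - δ) ≤ (1 + a) ^ (- δ / 2) (1 + b) ^ (-1 - δ / 2)`.  We may assume `δ ≤ 1`.
Then `∑_{a < M} (1 + a) ^ (- δ / 2) ≤ C' M ^ (1 - δ / 2)`, the sum over `b` is bounded, and
`M = q / 200 ≥ q / 400`.
-/

set_option autoImplicit false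

open MeasureTheory Finset

namespace Pool.Agent.Helper61.FR

/-- Fourier coefficients -/
noncomputable def cf (μ : Measure ℝ) (n : ℤ) : ℂ := ∫ y, e (n * y) ∂μ

theorem e_neg (y : ℝ) : e (-y) = star (e y) := by
  change _ = (starRingEnd ℂ) (e y)
  rw [e, e, ← Complex.exp_conj]
  congr 1
  have h2 : (starRingEnd ℂ) 2 = 2 := map_ofNat _ 2
  simp only [map_mul, Complex.conj_ofReal, Complex.conj_I, h2]
  push_cast
  ring

theorem integrable_e {μ : Measure ℝ} [IsFiniteMeasure μ] {f : ℝ → ℝ} (hf : Continuous f) :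
    Integrable (fun x => e (f x)) μ :=
  Integrable.of_bound (continuous_e.comp hf).aestronglyMeasurable 1
    (Filter.Eventually.of_forall fun x => (norm_e (f x)).le)

theorem cf_mul {μ : Measure ℝ} (h : Inv23 μ) (i k : ℕ) (n : ℤ) :
    cf μ (2 ^ i * 3 ^ k * n) = cf μ n := by
  have hp := preserving_two_three h i k
  have h1 : ∫ y, e (n * y) ∂μ =
      ∫ x, e (n * (fun x : ℝ => Int.fract (2 ^ i * 3 ^ k * x)) x) ∂μ := by
    have h2 := integral_map (μ := μ) hp.measurable.aemeasurable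
      (f := fun y : ℝ => e (n * y))
      (continuous_e.comp (continuous_const.mul continuous_id)).aestronglyMeasurable
    rw [hp.map_eq] at h2
    exact h2
  unfold cf
  rw [h1]
  refine integral_congr_ae (Filter.Eventually.of_forall fun x => ?_)
  have h3 : ((2 ^ i * 3 ^ k * n : ℤ) : ℝ) * x =
      n * Int.fract (2 ^ i * 3 ^ k * x) + ((n * ⌊(2 ^ i * 3 ^ k * x : ℝ)⌋ : ℤ) : ℝ) := by
    have h4 : (2 ^ i * 3 ^ k * x : ℝ) = Int.fract (2 ^ i * 3 ^ k * x : ℝ) +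
        (⌊(2 ^ i * 3 ^ k * x : ℝ)⌋ : ℝ) := (Int.fract_add_floor _).symm
    push_cast
    calc (2 ^ i * 3 ^ k * n : ℝ) * x = n * (2 ^ i * 3 ^ k * x) := by ring
      _ = n * (Int.fract (2 ^ i * 3 ^ k * x : ℝ) + (⌊(2 ^ i * 3 ^ k * x : ℝ)⌋ : ℝ)) := by
          rw [← h4]
      _ = _ := by ring
  change e (((2 ^ i * 3 ^ k * n : ℤ) : ℝ) * x) = e (n * Int.fract (2 ^ i * 3 ^ k * x))
  rw [h3, e_add, e_int, mul_one]

theorem cf_neg (μ : Measure ℝ) (n : ℤ) : cf μ (-n) = star (cf μ n) := by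
  unfold cf
  change _ = (starRingEnd ℂ) _
  rw [← integral_conj]
  refine integral_congr_ae (Filter.Eventually.of_forall fun x => ?_)
  change e (((-n : ℤ) : ℝ) * x) = star (e (n * x))
  rw [← e_neg]
  congr 1
  push_cast
  ring

theorem integral_avg {μ : Measure ℝ} (h : Inv23 μ) (M N m : ℕ) (hM : 1 ≤ M) (hN : 1 ≤ N) :
    ∫ x, avg M N (fun y => e (m * y)) x ∂μ = cf μ m := by
  have := h.prob
  have hi : ∀ i k : ℕ, Integrable (fun x : ℝ => e (m * (2 ^ i * 3 ^ k * x))) μ := fun i k =>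
    integrable_e (by fun_prop)
  have h1 : ∀ i k : ℕ, ∫ x, e (m * (2 ^ i * 3 ^ k * x)) ∂μ = cf μ m := by
    intro i k
    rw [← cf_mul h i k m]
    unfold cf
    refine integral_congr_ae (Filter.Eventually.of_forall fun x => ?_)
    change e (m * (2 ^ i * 3 ^ k * x)) = e (((2 ^ i * 3 ^ k * (m : ℤ) : ℤ) : ℝ) * x)
    congr 1
    push_cast
    ring
  have hMN : ((M : ℂ) * N) ≠ 0 := by
    have h2 : (M : ℂ) ≠ 0 := by exact_mod_cast (by omega : M ≠ 0)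
    have h3 : (N : ℂ) ≠ 0 := by exact_mod_cast (by omega : N ≠ 0)
    exact mul_ne_zero h2 h3
  unfold avg
  rw [integral_div, integral_finsetSum _ fun i _ => integrable_finsetSum _ fun k _ => hi i k]
  simp only [integral_finsetSum _ fun k _ => hi _ k, h1]
  rw [div_eq_iff hMN]
  simp only [sum_const, card_range, nsmul_eq_mul]
  ring

theorem integrable_avg {μ : Measure ℝ} (h : Inv23 μ) (M N m : ℕ) :
    Integrable (avg M N (fun y => e (m * y))) μ := by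
  have := h.prob
  unfold avg
  refine Integrable.div_const ?_ _
  exact integrable_finsetSum _ fun i _ => integrable_finsetSum _ fun k _ =>
    integrable_e (by fun_prop)

theorem mul_star_e (m : ℕ) (i k i' k' : ℕ) (x : ℝ) :
    e (m * (2 ^ i * 3 ^ k * x)) * star (e (m * (2 ^ i' * 3 ^ k' * x))) =
      e (((m * (2 ^ i * 3 ^ k - 2 ^ i' * 3 ^ k') : ℤ) : ℝ) * x) := by
  rw [← e_neg, ← e_add]
  congr 1
  push_cast
  ring

theorem avg_mul_star (M N m : ℕ) (x : ℝ) :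
    avg M N (fun y => e (m * y)) x * star (avg M N (fun y => e (m * y)) x) =
      (∑ i ∈ range M, ∑ k ∈ range N, ∑ i' ∈ range M, ∑ k' ∈ range N,
        e (((m * (2 ^ i * 3 ^ k - 2 ^ i' * 3 ^ k') : ℤ) : ℝ) * x)) / ((M : ℂ) * N) ^ 2 := by
  have hs : star ((M : ℂ) * N) = (M : ℂ) * N := by
    simp [star_mul']
  unfold avg
  rw [star_div₀, hs, div_mul_div_comm, ← sq]
  congr 1
  rw [star_sum, Finset.sum_mul]
  refine Finset.sum_congr rfl fun i _ => ?_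
  rw [Finset.sum_mul]
  refine Finset.sum_congr rfl fun k _ => ?_
  rw [Finset.mul_sum]
  refine Finset.sum_congr rfl fun i' _ => ?_
  rw [star_sum, Finset.mul_sum]
  refine Finset.sum_congr rfl fun k' _ => ?_
  exact mul_star_e m i k i' k' x

theorem integral_avg_mul_star {μ : Measure ℝ} (h : Inv23 μ) (M N m : ℕ) :
    ∫ x, avg M N (fun y => e (m * y)) x * star (avg M N (fun y => e (m * y)) x) ∂μ =
      (∑ i ∈ range M, ∑ k ∈ range N, ∑ i' ∈ range M, ∑ k' ∈ range N,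
        cf μ (m * (2 ^ i * 3 ^ k - 2 ^ i' * 3 ^ k'))) / ((M : ℂ) * N) ^ 2 := by
  have := h.prob
  simp only [avg_mul_star]
  have hi : ∀ n : ℤ, Integrable (fun x : ℝ => e ((n : ℝ) * x)) μ := fun n =>
    integrable_e (by fun_prop)
  rw [integral_div]
  congr 1
  rw [integral_finsetSum _ fun i _ => integrable_finsetSum _ fun k _ =>
    integrable_finsetSum _ fun i' _ => integrable_finsetSum _ fun k' _ => hi _]
  refine Finset.sum_congr rfl fun i _ => ?_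
  rw [integral_finsetSum _ fun k _ =>
    integrable_finsetSum _ fun i' _ => integrable_finsetSum _ fun k' _ => hi _]
  refine Finset.sum_congr rfl fun k _ => ?_
  rw [integral_finsetSum _ fun i' _ => integrable_finsetSum _ fun k' _ => hi _]
  refine Finset.sum_congr rfl fun i' _ => ?_
  rw [integral_finsetSum _ fun k' _ => hi _]
  rfl

theorem integrable_avg_mul_star {μ : Measure ℝ} (h : Inv23 μ) (M N m : ℕ) :
    Integrable (fun x => avg M N (fun y => e (m * y)) x *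
      star (avg M N (fun y => e (m * y)) x)) μ := by
  have := h.prob
  simp only [avg_mul_star]
  refine Integrable.div_const ?_ _
  exact integrable_finsetSum _ fun i _ => integrable_finsetSum _ fun k _ =>
    integrable_finsetSum _ fun i' _ => integrable_finsetSum _ fun k' _ =>
      integrable_e (by fun_prop)

theorem variance_eq {μ : Measure ℝ} (h : Inv23 μ) (M N m : ℕ) (hM : 1 ≤ M) (hN : 1 ≤ N) :
    ∫ x, ‖avg M N (fun y => e (m * y)) x - ∫ y, e (m * y) ∂μ‖ ^ 2 ∂μ =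
      (∑ i ∈ range M, ∑ k ∈ range N, ∑ i' ∈ range M, ∑ k' ∈ range N,
        (cf μ (m * (2 ^ i * 3 ^ k - 2 ^ i' * 3 ^ k'))).re) / (M * N) ^ 2 - ‖cf μ m‖ ^ 2 := by
  have := h.prob
  have hc : ∫ y, e (m * y) ∂μ = cf μ m := by
    unfold cf
    simp
  rw [hc]
  set c := cf μ m with hcd
  set A := avg M N (fun y => e (m * y)) with hA
  have h0 : ∀ z : ℂ, ((‖z‖ ^ 2 : ℝ) : ℂ) = z * star z := by
    intro z
    change _ = z * (starRingEnd ℂ) z
    rw [Complex.mul_conj, Complex.normSq_eq_norm_sq]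
  have hAi : Integrable A μ := integrable_avg h M N m
  have hAs : Integrable (fun x => star (A x)) μ :=
    (Complex.conjCLE : ℂ →L[ℝ] ℂ).integrable_comp hAi
  have hAA := integrable_avg_mul_star h M N m
  have h1 : ((∫ x, ‖A x - c‖ ^ 2 ∂μ : ℝ) : ℂ) =
      (∑ i ∈ range M, ∑ k ∈ range N, ∑ i' ∈ range M, ∑ k' ∈ range N,
        cf μ (m * (2 ^ i * 3 ^ k - 2 ^ i' * 3 ^ k'))) / ((M : ℂ) * N) ^ 2 - c * star c := by
    rw [← integral_complex_ofReal]
    have h2 : ∀ x, ((‖A x - c‖ ^ 2 : ℝ) : ℂ) =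
        A x * star (A x) - A x * star c - (c * star (A x) - c * star c) := by
      intro x
      rw [h0, star_sub]
      ring
    simp only [h2]
    rw [integral_sub, integral_sub, integral_sub, integral_avg_mul_star h M N m,
      integral_mul_const, integral_const_mul]
    · have h3 : ∫ x, A x ∂μ = c := integral_avg h M N m hM hN
      have h4 : ∫ x, star (A x) ∂μ = star c := by
        have := integral_conj (μ := μ) (f := A)
        change ∫ x, (starRingEnd ℂ) (A x) ∂μ = _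
        rw [this, h3]
        rfl
      rw [h3, h4]
      simp
    · exact hAs.const_mul c
    · exact integrable_const _
    · exact hAA
    · exact hAi.mul_const _
    · exact hAA.sub (hAi.mul_const _)
    · exact (hAs.const_mul c).sub (integrable_const _)
  have h5 := congrArg Complex.re h1
  rw [Complex.ofReal_re, ← h0] at h5
  rw [h5, Complex.sub_re, Complex.ofReal_re]
  congr 1
  have h6 : ((M : ℂ) * N) ^ 2 = (((M * N) ^ 2 : ℝ) : ℂ) := by push_cast; ring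
  rw [h6, Complex.div_ofReal_re]
  congr 1
  simp only [Complex.re_sum]

/-- distance of a Fourier coefficient from `‖cf μ m‖ ^ 2` -/
noncomputable def cd (μ : Measure ℝ) (m : ℕ) (n : ℤ) : ℝ :=
  ‖cf μ n - (‖cf μ m‖ ^ 2 : ℝ)‖

theorem cd_mul {μ : Measure ℝ} (h : Inv23 μ) (m i k : ℕ) (n : ℤ) :
    cd μ m (2 ^ i * 3 ^ k * n) = cd μ m n := by
  unfold cd
  rw [cf_mul h]

theorem cd_neg (μ : Measure ℝ) (m : ℕ) (n : ℤ) : cd μ m (-n) = cd μ m n := by
  unfold cd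
  rw [cf_neg]
  have h1 : star (cf μ n) - ((‖cf μ m‖ ^ 2 : ℝ) : ℂ) =
      star (cf μ n - ((‖cf μ m‖ ^ 2 : ℝ) : ℂ)) := by
    rw [star_sub]
    congr 1
    exact (Complex.conj_ofReal _).symm
  rw [h1, norm_star]

theorem re_sub_le (μ : Measure ℝ) (m : ℕ) (n : ℤ) :
    (cf μ n).re - ‖cf μ m‖ ^ 2 ≤ cd μ m n := by
  have h1 : (cf μ n).re - ‖cf μ m‖ ^ 2 = (cf μ n - ((‖cf μ m‖ ^ 2 : ℝ) : ℂ)).re := by
    rw [Complex.sub_re, Complex.ofReal_re]
  rw [h1]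
  exact Complex.re_le_norm _

theorem cd_pair_le {μ : Measure ℝ} (h : Inv23 μ) (m i k i' k' : ℕ) :
    cd μ m (m * (2 ^ i * 3 ^ k - 2 ^ i' * 3 ^ k')) ≤
      cd μ m (m * (2 ^ ((i - i') + (i' - i)) * 3 ^ ((k - k') + (k' - k)) - 1)) +
      cd μ m (m * (2 ^ ((i - i') + (i' - i)) - 3 ^ ((k - k') + (k' - k)))) := by
  have hn : ∀ n, 0 ≤ cd μ m n := fun n => norm_nonneg _
  rcases le_total i' i with hi | hi <;> rcases le_total k' k with hk | hk
  · obtain ⟨a, rfl⟩ := Nat.exists_eq_add_of_le hi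
    obtain ⟨b, rfl⟩ := Nat.exists_eq_add_of_le hk
    have e1 : (i' + a - i') + (i' - (i' + a)) = a := by omega
    have e2 : (k' + b - k') + (k' - (k' + b)) = b := by omega
    rw [e1, e2]
    have e3 : (m * (2 ^ (i' + a) * 3 ^ (k' + b) - 2 ^ i' * 3 ^ k') : ℤ) =
        2 ^ i' * 3 ^ k' * (m * (2 ^ a * 3 ^ b - 1)) := by ring
    rw [e3, cd_mul h]
    linarith [hn (m * (2 ^ a - 3 ^ b))]
  · obtain ⟨a, rfl⟩ := Nat.exists_eq_add_of_le hi
    obtain ⟨b, rfl⟩ := Nat.exists_eq_add_of_le hk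
    have e1 : (i' + a - i') + (i' - (i' + a)) = a := by omega
    have e2 : (k - (k + b)) + (k + b - k) = b := by omega
    rw [e1, e2]
    have e3 : (m * (2 ^ (i' + a) * 3 ^ k - 2 ^ i' * 3 ^ (k + b)) : ℤ) =
        2 ^ i' * 3 ^ k * (m * (2 ^ a - 3 ^ b)) := by ring
    rw [e3, cd_mul h]
    linarith [hn (m * (2 ^ a * 3 ^ b - 1))]
  · obtain ⟨a, rfl⟩ := Nat.exists_eq_add_of_le hi
    obtain ⟨b, rfl⟩ := Nat.exists_eq_add_of_le hk
    have e1 : (i - (i + a)) + (i + a - i) = a := by omega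
    have e2 : (k' + b - k') + (k' - (k' + b)) = b := by omega
    rw [e1, e2]
    have e3 : (m * (2 ^ i * 3 ^ (k' + b) - 2 ^ (i + a) * 3 ^ k') : ℤ) =
        2 ^ i * 3 ^ k' * (-(m * (2 ^ a - 3 ^ b))) := by ring
    rw [e3, cd_mul h, cd_neg]
    linarith [hn (m * (2 ^ a * 3 ^ b - 1))]
  · obtain ⟨a, rfl⟩ := Nat.exists_eq_add_of_le hi
    obtain ⟨b, rfl⟩ := Nat.exists_eq_add_of_le hk
    have e1 : (i - (i + a)) + (i + a - i) = a := by omega
    have e2 : (k - (k + b)) + (k + b - k) = b := by omega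
    rw [e1, e2]
    have e3 : (m * (2 ^ i * 3 ^ k - 2 ^ (i + a) * 3 ^ (k + b)) : ℤ) =
        2 ^ i * 3 ^ k * (-(m * (2 ^ a * 3 ^ b - 1))) := by ring
    rw [e3, cd_mul h, cd_neg]
    linarith [hn (m * (2 ^ a - 3 ^ b))]

theorem sum_dist_le (g : ℕ → ℝ) (hg : ∀ a, 0 ≤ g a) (M i : ℕ) (hi : i < M) :
    ∑ i' ∈ range M, g ((i - i') + (i' - i)) ≤ 2 * ∑ a ∈ range M, g a := by
  rw [← Finset.sum_filter_add_sum_filter_not (range M) (fun i' => i' ≤ i), two_mul]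
  refine add_le_add ?_ ?_
  · have h1 : ∀ x ∈ (range M).filter (fun i' => i' ≤ i), ∀ y ∈ (range M).filter (fun i' => i' ≤ i),
        i - x + (x - i) = i - y + (y - i) → x = y := by
      intro x hx y hy hxy
      rw [Finset.mem_filter, Finset.mem_range] at hx hy
      omega
    rw [← Finset.sum_image (f := g) h1]
    refine Finset.sum_le_sum_of_subset_of_nonneg ?_ fun a _ _ => hg a
    intro a ha
    rw [Finset.mem_image] at ha
    obtain ⟨x, hx, rfl⟩ := ha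
    rw [Finset.mem_filter, Finset.mem_range] at hx
    rw [Finset.mem_range]
    omega
  · have h1 : ∀ x ∈ (range M).filter (fun i' => ¬ i' ≤ i),
        ∀ y ∈ (range M).filter (fun i' => ¬ i' ≤ i),
        i - x + (x - i) = i - y + (y - i) → x = y := by
      intro x hx y hy hxy
      rw [Finset.mem_filter, Finset.mem_range] at hx hy
      omega
    rw [← Finset.sum_image (f := g) h1]
    refine Finset.sum_le_sum_of_subset_of_nonneg ?_ fun a _ _ => hg a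
    intro a ha
    rw [Finset.mem_image] at ha
    obtain ⟨x, hx, rfl⟩ := ha
    rw [Finset.mem_filter, Finset.mem_range] at hx
    rw [Finset.mem_range]
    omega

theorem variance_le_sum {μ : Measure ℝ} (h : Inv23 μ) (M N m : ℕ) (hM : 1 ≤ M) (hN : 1 ≤ N) :
    ∫ x, ‖avg M N (fun y => e (m * y)) x - ∫ y, e (m * y) ∂μ‖ ^ 2 ∂μ ≤
      4 / (M * N) * ∑ a ∈ range M, ∑ b ∈ range N,
        (‖cf μ (m * (2 ^ a * 3 ^ b - 1)) - (‖cf μ m‖ ^ 2 : ℝ)‖ +
          ‖cf μ (m * (2 ^ a - 3 ^ b)) - (‖cf μ m‖ ^ 2 : ℝ)‖) := by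
  rw [variance_eq h M N m hM hN]
  set G : ℕ → ℕ → ℝ := fun a b => cd μ m (m * (2 ^ a * 3 ^ b - 1)) + cd μ m (m * (2 ^ a - 3 ^ b))
    with hG
  have hG0 : ∀ a b, 0 ≤ G a b := fun a b => add_nonneg (norm_nonneg _) (norm_nonneg _)
  change _ ≤ 4 / (M * N) * ∑ a ∈ range M, ∑ b ∈ range N, G a b
  set T : ℝ := ∑ a ∈ range M, ∑ b ∈ range N, G a b with hT
  have hM0 : (0 : ℝ) < M := by exact_mod_cast hM
  have hN0 : (0 : ℝ) < N := by exact_mod_cast hN
  have h1 : ∑ i ∈ range M, ∑ k ∈ range N, ∑ i' ∈ range M, ∑ k' ∈ range N,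
      ((cf μ (m * (2 ^ i * 3 ^ k - 2 ^ i' * 3 ^ k'))).re - ‖cf μ m‖ ^ 2) =
      ∑ i ∈ range M, ∑ k ∈ range N, ∑ i' ∈ range M, ∑ k' ∈ range N,
        (cf μ (m * (2 ^ i * 3 ^ k - 2 ^ i' * 3 ^ k'))).re - (M * N) ^ 2 * ‖cf μ m‖ ^ 2 := by
    simp only [Finset.sum_sub_distrib, sum_const, card_range, nsmul_eq_mul]
    ring
  have h2 : ∑ i ∈ range M, ∑ k ∈ range N, ∑ i' ∈ range M, ∑ k' ∈ range N,
      ((cf μ (m * (2 ^ i * 3 ^ k - 2 ^ i' * 3 ^ k'))).re - ‖cf μ m‖ ^ 2) ≤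
      ∑ i ∈ range M, ∑ k ∈ range N, 4 * T := by
    refine Finset.sum_le_sum fun i hi => Finset.sum_le_sum fun k hk => ?_
    rw [Finset.mem_range] at hi hk
    calc ∑ i' ∈ range M, ∑ k' ∈ range N,
          ((cf μ (m * (2 ^ i * 3 ^ k - 2 ^ i' * 3 ^ k'))).re - ‖cf μ m‖ ^ 2)
        ≤ ∑ i' ∈ range M, ∑ k' ∈ range N, G ((i - i') + (i' - i)) ((k - k') + (k' - k)) :=
          Finset.sum_le_sum fun i' _ => Finset.sum_le_sum fun k' _ =>
            le_trans (re_sub_le μ m _) (cd_pair_le h m i k i' k')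
      _ ≤ ∑ i' ∈ range M, 2 * ∑ b ∈ range N, G ((i - i') + (i' - i)) b :=
          Finset.sum_le_sum fun i' _ => sum_dist_le (fun b => G ((i - i') + (i' - i)) b)
            (fun b => hG0 _ b) N k hk
      _ ≤ 2 * ∑ a ∈ range M, (2 * ∑ b ∈ range N, G a b) :=
          sum_dist_le (fun a => 2 * ∑ b ∈ range N, G a b)
            (fun a => mul_nonneg (by norm_num) (Finset.sum_nonneg fun b _ => hG0 a b)) M i hi
      _ = 4 * T := by
          rw [← Finset.mul_sum, hT]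
          ring
  have h3 : ∑ i ∈ range M, ∑ k ∈ range N, 4 * T = M * N * (4 * T) := by
    simp only [sum_const, card_range, nsmul_eq_mul]
    ring
  rw [h1, h3] at h2
  have h4 : (0 : ℝ) < (M * N) ^ 2 := by positivity
  rw [← sub_nonneg]
  have h5 : 4 / (M * N) * T - ((∑ i ∈ range M, ∑ k ∈ range N, ∑ i' ∈ range M, ∑ k' ∈ range N,
        (cf μ (m * (2 ^ i * 3 ^ k - 2 ^ i' * 3 ^ k'))).re) / (M * N) ^ 2 - ‖cf μ m‖ ^ 2) =
      (M * N * (4 * T) - (∑ i ∈ range M, ∑ k ∈ range N, ∑ i' ∈ range M, ∑ k' ∈ range N,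
        (cf μ (m * (2 ^ i * 3 ^ k - 2 ^ i' * 3 ^ k'))).re - (M * N) ^ 2 * ‖cf μ m‖ ^ 2)) /
        (M * N) ^ 2 := by
    field_simp
  rw [h5]
  exact div_nonneg (by linarith) h4.le

theorem sum_rpow_le (θ : ℝ) (h0 : 0 < θ) (h1 : θ ≤ 1 / 2) (M : ℕ) :
    ∑ a ∈ range M, ((a : ℝ) + 1) ^ (-θ) ≤ 2 * (M : ℝ) ^ (1 - θ) := by
  induction M with
  | zero => simp; exact Real.rpow_nonneg le_rfl _
  | succ n ih =>
    rw [Finset.sum_range_succ]
    have hp : (0 : ℝ) < (n : ℝ) + 1 := by positivity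
    have h2 : (1 + -((n : ℝ) + 1)⁻¹) ^ (1 - θ) ≤ 1 + (1 - θ) * -((n : ℝ) + 1)⁻¹ := by
      refine _root_.rpow_one_add_le_one_add_mul_self ?_ (by linarith) (by linarith)
      have : ((n : ℝ) + 1)⁻¹ ≤ 1 := inv_le_one_of_one_le₀ (by linarith [Nat.cast_nonneg (α := ℝ) n])
      linarith
    have h3 : (1 + -((n : ℝ) + 1)⁻¹) = n / ((n : ℝ) + 1) := by
      field_simp
      ring
    rw [h3, Real.div_rpow (by positivity) hp.le] at h2
    have hq : (0 : ℝ) < ((n : ℝ) + 1) ^ (1 - θ) := Real.rpow_pos_of_pos hp _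
    rw [div_le_iff₀ hq] at h2
    have h4 : ((n : ℝ) + 1) ^ (1 - θ) * ((n : ℝ) + 1)⁻¹ = ((n : ℝ) + 1) ^ (-θ) := by
      rw [← Real.rpow_neg_one, ← Real.rpow_add hp]
      congr 1
      ring
    have h5 : (1 + (1 - θ) * -((n : ℝ) + 1)⁻¹) * ((n : ℝ) + 1) ^ (1 - θ) =
        ((n : ℝ) + 1) ^ (1 - θ) - (1 - θ) * ((n : ℝ) + 1) ^ (-θ) := by
      rw [← h4]
      ring
    rw [h5] at h2
    have h6 : (0 : ℝ) < ((n : ℝ) + 1) ^ (-θ) := Real.rpow_pos_of_pos hp _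
    push_cast
    nlinarith

theorem decay_split (θ δ : ℝ) (h0 : 0 < θ) (h1 : 2 * θ ≤ δ) (a b : ℕ) :
    ((1 + a + b : ℕ) : ℝ) ^ (-1 - δ) ≤ ((a : ℝ) + 1) ^ (-θ) * ((b : ℝ) + 1) ^ (-1 - θ) := by
  have ha : (0 : ℝ) < (a : ℝ) + 1 := by positivity
  have hb : (0 : ℝ) < (b : ℝ) + 1 := by positivity
  have hx : (1 : ℝ) ≤ ((1 + a + b : ℕ) : ℝ) := by exact_mod_cast (by omega : 1 ≤ 1 + a + b)
  have hx0 : (0 : ℝ) < ((1 + a + b : ℕ) : ℝ) := by linarith
  have hxa : (a : ℝ) + 1 ≤ ((1 + a + b : ℕ) : ℝ) := by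
    push_cast
    linarith [Nat.cast_nonneg (α := ℝ) b]
  have hxb : (b : ℝ) + 1 ≤ ((1 + a + b : ℕ) : ℝ) := by
    push_cast
    linarith [Nat.cast_nonneg (α := ℝ) a]
  calc ((1 + a + b : ℕ) : ℝ) ^ (-1 - δ) ≤ ((1 + a + b : ℕ) : ℝ) ^ (-θ + (-1 - θ)) :=
        Real.rpow_le_rpow_of_exponent_le hx (by linarith)
    _ = ((1 + a + b : ℕ) : ℝ) ^ (-θ) * ((1 + a + b : ℕ) : ℝ) ^ (-1 - θ) := Real.rpow_add hx0 _ _
    _ ≤ ((a : ℝ) + 1) ^ (-θ) * ((b : ℝ) + 1) ^ (-1 - θ) := by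
        refine mul_le_mul ?_ ?_ (Real.rpow_nonneg hx0.le _) (Real.rpow_nonneg ha.le _)
        · exact Real.rpow_le_rpow_of_nonpos ha hxa (by linarith)
        · exact Real.rpow_le_rpow_of_nonpos hb hxb (by linarith)

theorem variance_le {μ : Measure ℝ} (h : Inv23 μ) (m : ℕ) (C δ : ℝ) (hδ : 0 < δ)
    (h1 : ∀ a b : ℕ, ‖cf μ (m * (2 ^ a * 3 ^ b - 1)) - (‖cf μ m‖ ^ 2 : ℝ)‖ ≤
      C * ((1 + a + b : ℕ) : ℝ) ^ (-1 - δ))
    (h2 : ∀ a b : ℕ, ‖cf μ (m * (2 ^ a - 3 ^ b)) - (‖cf μ m‖ ^ 2 : ℝ)‖ ≤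
      C * ((1 + a + b : ℕ) : ℝ) ^ (-1 - δ)) :
    ∃ C' δ' : ℝ, 0 < δ' ∧ ∀ q : ℕ, 200 ≤ q →
      ∫ x, ‖avg (q / 200) (2 ^ q) (fun y => e (m * y)) x - ∫ y, e (m * y) ∂μ‖ ^ 2 ∂μ ≤
        C' / (2 ^ q * (q : ℝ) ^ δ') := by
  obtain ⟨θ, hθ⟩ : ∃ θ : ℝ, θ = min δ 1 / 2 := ⟨_, rfl⟩
  have hθ0 : 0 < θ := by
    rw [hθ]
    exact div_pos (lt_min hδ one_pos) two_pos
  have hθ1 : θ ≤ 1 / 2 := by
    rw [hθ]
    linarith [min_le_right δ 1]
  have hθδ : 2 * θ ≤ δ := by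
    rw [hθ]
    linarith [min_le_left δ 1]
  have hC : 0 ≤ C := by
    have h3 := le_trans (norm_nonneg _) (h1 0 0)
    simpa using h3
  have hZ : Summable (fun b : ℕ => ((b : ℝ) + 1) ^ (-1 - θ)) := by
    have h3 : Summable (fun n : ℕ => (n : ℝ) ^ (-1 - θ)) := Real.summable_nat_rpow.2 (by linarith)
    have h4 := (summable_nat_add_iff 1).2 h3
    simpa using h4
  obtain ⟨Z, hZd⟩ : ∃ Z : ℝ, Z = ∑' b : ℕ, ((b : ℝ) + 1) ^ (-1 - θ) := ⟨_, rfl⟩
  have hnn : ∀ b : ℕ, 0 ≤ ((b : ℝ) + 1) ^ (-1 - θ) := fun b => Real.rpow_nonneg (by positivity) _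
  have hZ0 : 0 ≤ Z := by
    rw [hZd]
    exact tsum_nonneg hnn
  refine ⟨16 * C * Z * 400 ^ θ, θ, hθ0, fun q hq => ?_⟩
  have hM : 1 ≤ q / 200 := by omega
  have hN : 1 ≤ 2 ^ q := Nat.one_le_two_pow
  refine le_trans (variance_le_sum h (q / 200) (2 ^ q) m hM hN) ?_
  obtain ⟨M, hMd⟩ : ∃ M : ℕ, M = q / 200 := ⟨_, rfl⟩
  rw [← hMd] at hM ⊢
  have hM0 : (0 : ℝ) < M := by exact_mod_cast hM
  have hqM : (q : ℝ) / 400 ≤ M := by
    have h3 : q ≤ 400 * M := by omega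
    have h4 : (q : ℝ) ≤ 400 * M := by exact_mod_cast h3
    linarith
  have hq0 : (0 : ℝ) < q := by
    have : 0 < q := by omega
    exact_mod_cast this
  have hsum : ∑ a ∈ range M, ∑ b ∈ range (2 ^ q),
        (‖cf μ (m * (2 ^ a * 3 ^ b - 1)) - (‖cf μ m‖ ^ 2 : ℝ)‖ +
          ‖cf μ (m * (2 ^ a - 3 ^ b)) - (‖cf μ m‖ ^ 2 : ℝ)‖) ≤
      2 * C * ((2 * (M : ℝ) ^ (1 - θ)) * Z) := by
    calc ∑ a ∈ range M, ∑ b ∈ range (2 ^ q),
        (‖cf μ (m * (2 ^ a * 3 ^ b - 1)) - (‖cf μ m‖ ^ 2 : ℝ)‖ +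
          ‖cf μ (m * (2 ^ a - 3 ^ b)) - (‖cf μ m‖ ^ 2 : ℝ)‖)
        ≤ ∑ a ∈ range M, ∑ b ∈ range (2 ^ q),
          2 * C * (((a : ℝ) + 1) ^ (-θ) * ((b : ℝ) + 1) ^ (-1 - θ)) := by
          refine Finset.sum_le_sum fun a _ => Finset.sum_le_sum fun b _ => ?_
          have h3 := mul_le_mul_of_nonneg_left (decay_split θ δ hθ0 hθδ a b) hC
          linarith [h1 a b, h2 a b]
      _ = 2 * C * ((∑ a ∈ range M, ((a : ℝ) + 1) ^ (-θ)) *
          ∑ b ∈ range (2 ^ q), ((b : ℝ) + 1) ^ (-1 - θ)) := by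
          rw [Finset.sum_mul_sum, Finset.mul_sum]
          refine Finset.sum_congr rfl fun a _ => ?_
          rw [Finset.mul_sum]
      _ ≤ 2 * C * ((2 * (M : ℝ) ^ (1 - θ)) * Z) := by
          refine mul_le_mul_of_nonneg_left ?_ (by positivity)
          refine mul_le_mul (sum_rpow_le θ hθ0 hθ1 M) ?_ (Finset.sum_nonneg fun b _ => hnn b)
            (mul_nonneg (by norm_num) (Real.rpow_nonneg hM0.le _))
          rw [hZd]
          exact hZ.sum_le_tsum _ fun b _ => hnn b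
  have hMN : (0 : ℝ) < (M : ℝ) * ((2 ^ q : ℕ) : ℝ) := by positivity
  refine le_trans (mul_le_mul_of_nonneg_left hsum (by positivity)) ?_
  have e1 : (M : ℝ) ^ (1 - θ) = M * (M : ℝ) ^ (-θ) := by
    rw [sub_eq_add_neg, Real.rpow_add hM0, Real.rpow_one]
  have e2 : (M : ℝ) ^ (-θ) ≤ 400 ^ θ / (q : ℝ) ^ θ := by
    have h3 : (M : ℝ) ^ (-θ) ≤ ((q : ℝ) / 400) ^ (-θ) :=
      Real.rpow_le_rpow_of_nonpos (by positivity) hqM (by linarith)
    refine le_trans h3 (le_of_eq ?_)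
    rw [Real.rpow_neg (by positivity), Real.div_rpow hq0.le (by norm_num), inv_div]
  have e3 : 4 / ((M : ℝ) * ((2 ^ q : ℕ) : ℝ)) * (2 * C * ((2 * (M : ℝ) ^ (1 - θ)) * Z)) =
      16 * C * Z * (M : ℝ) ^ (-θ) / 2 ^ q := by
    rw [e1]
    push_cast
    field_simp
    ring
  rw [e3]
  have e4 : 16 * C * Z * 400 ^ θ / (2 ^ q * (q : ℝ) ^ θ) =
      16 * C * Z * (400 ^ θ / (q : ℝ) ^ θ) / 2 ^ q := by
    have : (0 : ℝ) < (q : ℝ) ^ θ := Real.rpow_pos_of_pos hq0 _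
    field_simp
  rw [e4]
  refine div_le_div_of_nonneg_right ?_ (by positivity)
  exact mul_le_mul_of_nonneg_left e2 (by positivity)

end Pool.Agent.Helper61.FR
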