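import Mathlib
import Pool.Agent.Helper61.FR.Defs

/-!
# FR-P13: from the circle to the interval

Proof.  `μ` is the image of `ν` under `x ↦ (AddCircle.equivIco 1 0 x : ℝ)` (measurable; a section of
the projection `ℝ → AddCircle 1`).  If `x` is the class of `t` then the representative of `s • x` in
`[0, 1)` is `fract (s t)` (`AddCircle.coe_equivIco_mk_apply`).
-/

set_option autoImplicit false

open MeasureTheory Finset

namespace Pool.Agent.Helper61.FR

/-- the representative in `[0, 1)` -/
private noncomputable def sec (x : AddCircle (1 : ℝ)) : ℝ := (AddCircle.equivIco (1 : ℝ) 0 x : ℝ)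

private lemma measurable_sec : Measurable sec :=
  measurable_subtype_coe.comp (AddCircle.measurableEquivIco (1 : ℝ) 0).measurable

private lemma coe_sec (x : AddCircle (1 : ℝ)) : (sec x : AddCircle (1 : ℝ)) = x :=
  AddCircle.coe_equivIco

private lemma sec_mem (x : AddCircle (1 : ℝ)) : sec x ∈ Set.Ico (0 : ℝ) 1 := by
  have h := (AddCircle.equivIco (1 : ℝ) 0 x).2
  exact ⟨h.1, lt_of_lt_of_eq h.2 (zero_add 1)⟩

private lemma sec_coe (y : ℝ) : sec (y : AddCircle (1 : ℝ)) = Int.fract y := by
  have := AddCircle.coe_equivIco_mk_apply (p := (1 : ℝ)) y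
  rw [div_one, mul_one] at this
  exact this

private lemma sec_smul (s : ℕ) (x : AddCircle (1 : ℝ)) : sec (s • x) = Int.fract (s * sec x) := by
  rw [← sec_coe]
  congr 1
  conv_lhs => rw [← coe_sec x]
  rw [← AddCircle.coe_nsmul, nsmul_eq_mul]

theorem exists_inv23 (ν : Measure (AddCircle (1 : ℝ))) [IsProbabilityMeasure ν]
    (h2 : MeasurePreserving (fun x : AddCircle (1 : ℝ) => (2 : ℕ) • x) ν ν)
    (h3 : MeasurePreserving (fun x : AddCircle (1 : ℝ) => (3 : ℕ) • x) ν ν) :
    ∃ μ : Measure ℝ, Inv23 μ ∧ μ.map (fun y : ℝ => (y : AddCircle (1 : ℝ))) = ν ∧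
      ((∀ x, ν {x} = 0) → ∀ x, μ {x} = 0) := by
  have hc : Measurable (fun y : ℝ => (y : AddCircle (1 : ℝ))) := AddCircle.measurable_mk'
  have key : ∀ s : ℕ, MeasurePreserving (fun x : AddCircle (1 : ℝ) => s • x) ν ν →
      MeasurePreserving (fun x : ℝ => Int.fract (s * x)) (ν.map sec) (ν.map sec) := by
    intro s hs
    have hm : Measurable (fun x : ℝ => Int.fract (s * x)) :=
      measurable_fract.comp (measurable_const_mul _)
    refine ⟨hm, ?_⟩
    rw [Measure.map_map hm measurable_sec]
    have e1 : (fun x : ℝ => Int.fract (s * x)) ∘ sec = sec ∘ fun x => s • x := by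
      funext x
      exact (sec_smul s x).symm
    rw [e1, ← Measure.map_map measurable_sec hs.measurable, hs.map_eq]
  refine ⟨ν.map sec, ⟨Measure.isProbabilityMeasure_map measurable_sec.aemeasurable, ?_, ?_, ?_⟩,
    ?_, ?_⟩
  · have h4 : MeasurableSet {x : ℝ | x ∈ Set.Ico (0 : ℝ) 1} := measurableSet_Ico
    rw [ae_map_iff measurable_sec.aemeasurable h4]
    exact Filter.Eventually.of_forall sec_mem
  · have := key 2 h2
    simpa using this
  · have := key 3 h3
    simpa using this
  · rw [Measure.map_map hc measurable_sec]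
    have : (fun y : ℝ => (y : AddCircle (1 : ℝ))) ∘ sec = id := by
      funext x
      exact coe_sec x
    rw [this, Measure.map_id]
  · intro h0 x
    rw [Measure.map_apply measurable_sec (measurableSet_singleton x)]
    refine measure_mono_null ?_ (h0 (x : AddCircle (1 : ℝ)))
    intro y hy
    have hy' : sec y = x := hy
    rw [Set.mem_singleton_iff, ← hy', coe_sec]

theorem fourier_eq_e (m : ℤ) (y : ℝ) : (fourier m (y : AddCircle (1 : ℝ)) : ℂ) = e (m * y) := by
  rw [fourier_coe_apply]
  unfold e
  congr 1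
  push_cast
  ring

end Pool.Agent.Helper61.FR
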