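import Mathlib
import Pool.Agent.Helper61.FR.Defs

/-!
# FR-P11: small variances give summable deviations

Proof.  Chebyshev: `η ^ 2 μ (dev μ M N m η) ≤ ∫ ‖avg - mean‖ ^ 2`, so for `q ≥ 200` the `q`-th term
is at most `C / (η ^ 2 q ^ (1 + δ))`.
-/

set_option autoImplicit false

open MeasureTheory Finset

namespace Pool.Agent.Helper61.FR

theorem summable_dev {μ : Measure ℝ} (h : Inv23 μ) (M : ℕ → ℕ) (m : ℕ) (C δ : ℝ) (hδ : 0 < δ)
    (hV : ∀ q : ℕ, 200 ≤ q →
      ∫ x, ‖avg (M q) (2 ^ q) (fun y => e (m * y)) x - ∫ y, e (m * y) ∂μ‖ ^ 2 ∂μ ≤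
        C / (2 ^ q * (q : ℝ) ^ δ)) (η : ℝ) (hη : 0 < η) :
    Summable fun q : ℕ => (2 ^ q / q : ℝ) * μ.real (dev μ (M q) (2 ^ q) m η) := by
  have := h.prob
  have hs : Summable fun q : ℕ => (|C| / η ^ 2) * ((q : ℝ) ^ (-(1 + δ))) := by
    apply Summable.mul_left
    exact Real.summable_nat_rpow.mpr (by linarith)
  rw [← summable_nat_add_iff 200] at hs ⊢
  refine Summable.of_nonneg_of_le (fun q => by positivity) (fun q => ?_) hs
  obtain ⟨Q, hQ⟩ : ∃ Q, Q = q + 200 := ⟨_, rfl⟩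
  rw [← hQ]
  have hQ0 : (0 : ℝ) < Q := by
    have : 0 < Q := by omega
    exact_mod_cast this
  have hcont : Continuous fun x => avg (M Q) (2 ^ Q) (fun y => e (m * y)) x := by
    unfold avg e
    fun_prop
  have hint : Integrable (fun x => ‖avg (M Q) (2 ^ Q) (fun y => e (m * y)) x -
      ∫ y, e (m * y) ∂μ‖ ^ 2) μ := by
    refine Integrable.of_bound (C := 4) ?_ ?_
    · exact ((hcont.sub continuous_const).norm.pow 2).aestronglyMeasurable
    · refine Filter.Eventually.of_forall fun x => ?_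
      have he : ∀ y : ℝ, ‖e y‖ = 1 := by
        intro y
        unfold e
        rw [Complex.norm_exp]
        simp
      have h1 : ‖avg (M Q) (2 ^ Q) (fun y => e (m * y)) x‖ ≤ 1 := by
        unfold avg
        rw [norm_div]
        rcases Nat.eq_zero_or_pos (M Q) with h0 | hM
        · rw [h0]
          simp
        have hM0 : (0 : ℝ) < M Q := by exact_mod_cast hM
        have h2 : ‖(M Q : ℂ) * ((2 ^ Q : ℕ) : ℂ)‖ = M Q * (2 ^ Q : ℕ) := by
          rw [norm_mul, Complex.norm_natCast, Complex.norm_natCast]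
        rw [h2, div_le_one (by positivity)]
        refine (norm_sum_le _ _).trans ?_
        refine (Finset.sum_le_card_nsmul _ _ ((2 ^ Q : ℕ) : ℝ) fun i _ => ?_).trans ?_
        · refine (norm_sum_le _ _).trans ?_
          refine (Finset.sum_le_card_nsmul _ _ 1 fun k _ => (he _).le).trans ?_
          rw [Finset.card_range, nsmul_eq_mul, mul_one]
        · rw [Finset.card_range, nsmul_eq_mul]
      have h2 : ‖∫ y, e (m * y) ∂μ‖ ≤ 1 := by
        refine (norm_integral_le_integral_norm _).trans ?_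
        simp [he]
      have h3 : ‖avg (M Q) (2 ^ Q) (fun y => e (m * y)) x - ∫ y, e (m * y) ∂μ‖ ≤ 2 :=
        (norm_sub_le _ _).trans (by linarith)
      rw [Real.norm_of_nonneg (by positivity)]
      have h4 := norm_nonneg (avg (M Q) (2 ^ Q) (fun y => e (m * y)) x - ∫ y, e (m * y) ∂μ)
      nlinarith
  have h1 := mul_meas_ge_le_integral_of_nonneg
    (Filter.Eventually.of_forall fun x => by positivity) hint (η ^ 2)
  have h4 : μ.real (dev μ (M Q) (2 ^ Q) m η) ≤ μ.real {x | η ^ 2 ≤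
      ‖avg (M Q) (2 ^ Q) (fun y => e (m * y)) x - ∫ y, e (m * y) ∂μ‖ ^ 2} := by
    refine measureReal_mono ?_ (measure_ne_top _ _)
    intro x hx
    have hx' : η < ‖avg (M Q) (2 ^ Q) (fun y => e (m * y)) x - ∫ y, e (m * y) ∂μ‖ := hx
    show η ^ 2 ≤ ‖avg (M Q) (2 ^ Q) (fun y => e (m * y)) x - ∫ y, e (m * y) ∂μ‖ ^ 2
    gcongr
  have h5 := hV Q (by omega)
  have hη2 : 0 < η ^ 2 := by positivity
  have h6 : μ.real (dev μ (M Q) (2 ^ Q) m η) ≤ |C| / (2 ^ Q * (Q : ℝ) ^ δ) / η ^ 2 := by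
    rw [le_div_iff₀ hη2]
    have hle : C / (2 ^ Q * (Q : ℝ) ^ δ) ≤ |C| / (2 ^ Q * (Q : ℝ) ^ δ) :=
      div_le_div_of_nonneg_right (le_abs_self C) (by positivity)
    have h7 : η ^ 2 * μ.real (dev μ (M Q) (2 ^ Q) m η) ≤ C / (2 ^ Q * (Q : ℝ) ^ δ) :=
      (mul_le_mul_of_nonneg_left h4 hη2.le).trans (h1.trans h5)
    linarith
  calc (2 ^ Q / Q : ℝ) * μ.real (dev μ (M Q) (2 ^ Q) m η)
      ≤ (2 ^ Q / Q : ℝ) * (|C| / (2 ^ Q * (Q : ℝ) ^ δ) / η ^ 2) :=
        mul_le_mul_of_nonneg_left h6 (by positivity)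
    _ = (|C| / η ^ 2) * ((Q : ℝ) ^ (-(1 + δ))) := by
        rw [Real.rpow_neg hQ0.le, Real.rpow_add hQ0, Real.rpow_one]
        have h8 : (Q : ℝ) ^ δ ≠ 0 := (Real.rpow_pos_of_pos hQ0 δ).ne'
        field_simp

end Pool.Agent.Helper61.FR
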