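import Mathlib
import Pool.Agent.Helper61.FR.St.P12

set_option autoImplicit false
open MeasureTheory Finset
namespace Pool.Agent.Helper61.FR
theorem variance_le_sum {μ : Measure ℝ} (h : Inv23 μ) (M N m : ℕ) (hM : 1 ≤ M) (hN : 1 ≤ N) :
    ∫ x, ‖avg M N (fun y => e (m * y)) x - ∫ y, e (m * y) ∂μ‖ ^ 2 ∂μ ≤
      4 / (M * N) * ∑ a ∈ range M, ∑ b ∈ range N,
        (‖cf μ (m * (2 ^ a * 3 ^ b - 1)) - (‖cf μ m‖ ^ 2 : ℝ)‖ +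
          ‖cf μ (m * (2 ^ a - 3 ^ b)) - (‖cf μ m‖ ^ 2 : ℝ)‖) := by
  sorry
end Pool.Agent.Helper61.FR
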